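import Pool.Agent.Lib.DU.LS.Spec

/-!
# Theorem DU, part LS, module Bt: systems of representatives modulo f 3^N (author helper28, after DM/GC, DR/LS)
-/

set_option autoImplicit false

open scoped Pointwise

noncomputable section

namespace Pool.Agent.DM.DU.LS

open Pool.Agent.MuZ Pool.Agent.FW Pool.Agent.DN Pool.Agent.DM Pool.Agent.DM.DU
open Pool.Agent.DI (io ofC io_inj exists_io io_ofC ofC_io VP MP UP TP ex)
open Pool.Agent.DT (kap cbr)
open Pool.Agent.DM.G (Pm CN)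
open Pool.Agent.DM.GL (GE vP pl pH IsR Un)
open Pool.Agent.DM.DU.GL (II Cls Orb Hn Hm Hs PtN dv SS)

private theorem Bt_key {f q : ℕ} (hf : 0 < f) {a b : ℕ} (ha : a < q) (hb : b < q)
    (h5 : ((f * q : ℕ) : ℤ) ∣ (f : ℤ) * a - (f : ℤ) * b) : a = b := by
  have he0 : (f : ℤ) ≠ 0 := by exact_mod_cast hf.ne'
  rw [← mul_sub] at h5
  push_cast at h5
  have h6 : (q : ℤ) ∣ (a : ℤ) - b := (mul_dvd_mul_iff_left he0).1 h5
  have h7 : (a : ℤ) - b = 0 := by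
    apply Int.eq_zero_of_abs_lt_dvd h6
    rw [abs_lt]
    constructor <;> omega
  omega

private theorem Bt_first {n t : ℕ} {f : ℕ} (N : ℕ) (hf : 0 < f) :
    RpI (fun v : OO n t => (f : OO n t) ∣ v - 1) (f * 3 ^ N) (Bx N) (bp f) := by
  have hq : (0 : ℤ) < ((3 ^ N : ℕ) : ℤ) := by
    have := Nat.pos_of_ne_zero (pow_ne_zero N (three_ne_zero (α := ℕ)))
    exact_mod_cast this
  refine ⟨fun p _ => ga_sub_one f p.1 p.2, ?_, ?_⟩
  · rintro ⟨x, y⟩ hp ⟨x', y'⟩ hp' h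
    unfold Bx at hp hp'
    rw [Finset.mem_product, Finset.mem_range, Finset.mem_range] at hp hp'
    rw [nat_dvd_iff, QuadraticAlgebra.re_sub, QuadraticAlgebra.im_sub] at h
    obtain ⟨h3, h4⟩ := h
    change ((f * 3 ^ N : ℕ) : ℤ) ∣ (1 + (f : ℤ) * x) - (1 + (f : ℤ) * x') at h3
    change ((f * 3 ^ N : ℕ) : ℤ) ∣ (f : ℤ) * y - (f : ℤ) * y' at h4
    have e3 : (1 + (f : ℤ) * x) - (1 + (f : ℤ) * x') = (f : ℤ) * x - (f : ℤ) * x' := by ring
    rw [e3] at h3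
    exact Prod.ext (Bt_key hf hp.1 hp'.1 h3) (Bt_key hf hp.2 hp'.2 h4)
  · intro v hv
    change (f : OO n t) ∣ v - 1 at hv
    rw [nat_dvd_iff, QuadraticAlgebra.re_sub, QuadraticAlgebra.im_sub, re_one, im_one, sub_zero] at hv
    obtain ⟨⟨a, ha⟩, ⟨b, hb⟩⟩ := hv
    obtain ⟨x, hx⟩ : ∃ x : ℕ, (x : ℤ) = a % (3 ^ N : ℕ) :=
      ⟨(a % (3 ^ N : ℕ)).toNat, Int.toNat_of_nonneg (Int.emod_nonneg _ hq.ne')⟩
    obtain ⟨y, hy⟩ : ∃ y : ℕ, (y : ℤ) = b % (3 ^ N : ℕ) :=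
      ⟨(b % (3 ^ N : ℕ)).toNat, Int.toNat_of_nonneg (Int.emod_nonneg _ hq.ne')⟩
    have hx1 : x < 3 ^ N := by
      have := Int.emod_lt_of_pos a hq
      rw [← hx] at this
      exact_mod_cast this
    have hy1 : y < 3 ^ N := by
      have := Int.emod_lt_of_pos b hq
      rw [← hy] at this
      exact_mod_cast this
    refine ⟨(x, y), ?_, ?_⟩
    · unfold Bx
      rw [Finset.mem_product, Finset.mem_range, Finset.mem_range]
      exact ⟨hx1, hy1⟩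
    · have h5 := Int.emod_add_mul_ediv a (3 ^ N : ℕ)
      have h6 := Int.emod_add_mul_ediv b (3 ^ N : ℕ)
      rw [← hx] at h5
      rw [← hy] at h6
      rw [nat_dvd_iff, QuadraticAlgebra.re_sub, QuadraticAlgebra.im_sub]
      constructor
      · change ((f * 3 ^ N : ℕ) : ℤ) ∣ v.re - (1 + (f : ℤ) * x)
        refine ⟨a / (3 ^ N : ℕ), ?_⟩
        push_cast at h5 ⊢
        linear_combination ha - (f : ℤ) * h5
      · change ((f * 3 ^ N : ℕ) : ℤ) ∣ v.im - (f : ℤ) * y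
        refine ⟨b / (3 ^ N : ℕ), ?_⟩
        push_cast at h6 ⊢
        linear_combination hb - (f : ℤ) * h6

private theorem Bt_tm {n t : ℕ} [SqN n t] {f : ℕ} (hf : Fok f) :
    RpI (fun v : OO n t => (f : OO n t) ∣ v - 1 ∧ Cop v 3) (3 * f) (tm n t f) (fun v : OO n t => v) := by
  refine ⟨fun α hα => w_tm hf hα, fun α hα β hβ h => w_tm_uni hf hα hβ ?_, ?_⟩
  · have h1 := CV_cast_dvd (Dvd.intro f rfl : 3 ∣ 3 * f) h
    rwa [w_cast3] at h1
  · rintro v ⟨hv1, hv2⟩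
    obtain ⟨α, hα, h1⟩ := w_tm_ex hf hv2
    refine ⟨α, hα, CV_cast_mul hf.cop.symm (by rwa [w_cast3]) ?_⟩
    have h2 := dvd_sub hv1 (w_tm hf hα).1
    rwa [sub_sub_sub_cancel_right] at h2

theorem tBt : S_Bt := by
  classical
  intro n t _ f N hf
  have hf0 : 0 < f := hf.pos
  have h1 := Bt_first (n := n) (t := t) N hf0
  refine ⟨h1, fun hN => ⟨?_, ?_⟩⟩
  · have h2 : 3 ∣ f * 3 ^ N := dvd_mul_of_dvd_right (dvd_pow_self 3 (by omega)) f
    refine ⟨?_, ?_, ?_⟩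
    · intro p hp
      rw [Finset.mem_filter] at hp
      exact ⟨h1.mem p hp.1, hp.2⟩
    · intro p hp p' hp' h
      rw [Finset.mem_filter] at hp hp'
      exact h1.inj p hp.1 p' hp'.1 h
    · rintro v ⟨hv1, hv2⟩
      obtain ⟨p, hp, h3⟩ := h1.ex v hv1
      refine ⟨p, ?_, h3⟩
      rw [Finset.mem_filter]
      exact ⟨hp, cop_congr (CV_cast_dvd h2 h3) hv2⟩
  · obtain ⟨K, rfl⟩ : ∃ K, N = K + 1 := ⟨N - 1, by omega⟩
    have hS := Bt_tm (n := n) (t := t) hf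
    have hα : ∀ α ∈ tm n t f, Cop α (3 * f * 3 ^ K) := by
      intro α hα
      obtain ⟨h3, h4⟩ := w_tm hf hα
      have h5 := w_tm_cop hf hα
      unfold Cop at *
      push_cast
      push_cast at h5
      exact IsCoprime.mul_right h5 ((by exact_mod_cast h4 : IsCoprime (Nm α) (3 : ℤ)).pow_right)
    have h3 := RpI_ga (by omega : 0 < 3 * f) (Nat.pos_of_ne_zero (pow_ne_zero K (three_ne_zero (α := ℕ))))
      (Dvd.intro_left 3 rfl) (Dvd.intro _ rfl) hα hS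
    have e1 : 3 * f * 3 ^ K = f * 3 ^ (K + 1) := by
      rw [pow_succ]
      ring
    rw [e1] at h3
    exact h3

end Pool.Agent.DM.DU.LS
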