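import Pool.Agent.Lib.DU.LS.Spec

/-!
# Theorem DU, part LS, module Ca: the final estimate (helper46)
-/

set_option autoImplicit false

open scoped Pointwise

noncomputable section

namespace Pool.Agent.DM.DU.LS

open Pool.Agent.MuZ Pool.Agent.FW Pool.Agent.DN Pool.Agent.DM Pool.Agent.DM.DU
open Pool.Agent.DI (io ofC io_inj exists_io io_ofC ofC_io VP MP UP TP ex)
open Pool.Agent.DT (kap cbr)
open Pool.Agent.DM.G (Pm CN)
open Pool.Agent.DM.GL (GE vP pl pH IsR Un)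
open Pool.Agent.DM.DU.GL (II Cls Orb Hn Hm Hs PtN dv SS)

variable {n t : ℕ}

private theorem Ca_pow {θ : Om} {N : ℕ} (h : θ ^ 3 ^ N = 1) {a : ℕ} {z : ℤ} (hz : 0 ≤ z)
    (hd : (3 : ℤ) ^ N ∣ z - a) : θ ^ z.toNat = θ ^ a := by
  rw [pow_eq_pow_mod z.toNat h, pow_eq_pow_mod a h]
  have h1 : Nat.ModEq (3 ^ N) a z.toNat := by
    rw [Nat.modEq_iff_dvd, Int.toNat_of_nonneg hz]
    exact_mod_cast hd
  rw [show a % 3 ^ N = z.toNat % 3 ^ N from h1]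

theorem tCa : S_Ca := by
  intro hO4 hT0 hIn hAct hSur hGen hHD hTrN hTc hTau hUAct hNrm n t _ P hP f N k e m R χ z0 d SH θ hFM hFR
    hχ hk he hke hN hpt hSH hθ hθk hU hUτ
  have hPp : P.IsPrime := hP.1.1
  have h2 : DL.Pl P 3 := pl hP
  obtain ⟨hw4, hw0, hT0P, -⟩ := hT0
  obtain ⟨hwv, hwV, h4r⟩ := hT0P P hP
  obtain ⟨-, -, -, -, -, -, hNI0, hNI3, -⟩ := w_fm hFM
  obtain ⟨F, hF⟩ : ∃ F : ℕ, F = f * NI m := ⟨_, rfl⟩
  have hFok : Fok F := by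
    rw [hF]
    exact ⟨Nat.mul_pos hFM.pos hNI0, hFM.dvd.mul_right _, Nat.Coprime.mul_left hFM.cop hNI3⟩
  have hfF : f ∣ F := by rw [hF]; exact Dvd.intro _ rfl
  have hN1 : 1 ≤ N := by omega
  obtain ⟨-, hAuni, hA3, hAex, hAcov⟩ := hNrm n t N hN1
  obtain ⟨hUc, hUa⟩ := hUAct n t P hP f N k m R χ hFM hFR hχ hN1
  rw [← hF] at hUa
  obtain ⟨D, hD⟩ : ∃ D : ℚ, D = dv n t P z0 d SH := ⟨_, rfl⟩
  obtain ⟨U, hUd⟩ : ∃ U : Om, U = UU f N k m R χ 1 := ⟨_, rfl⟩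
  obtain ⟨ε, hε⟩ : ∃ ε : ℚ, ε = 3 ^ 6 / 3 ^ N := ⟨_, rfl⟩
  rw [← hD, ← hUd, ← hε] at hU
  rw [← hD, ← hUd, ← hε] at hUτ
  have hε1 : ε ≤ 1 / 9 := by
    rw [hε, div_le_div_iff₀ (by positivity) (by norm_num), one_mul]
    have h3 : (3 : ℚ) ^ 8 ≤ 3 ^ N := pow_le_pow_right₀ (by norm_num) hN
    have h4 : (3 : ℚ) ^ 6 * 9 = 3 ^ 8 := by norm_num
    rw [h4]
    exact h3
  have h3N : (0 : ℕ) < 3 ^ N := by positivity
  have hθu : UP P θ := CV_up_of_pow hPp h3N hθ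
  have hθ0 : θ ≠ 0 := hθu.ne_zero
  -- the orbits
  obtain ⟨SM, hSM⟩ := GL.genE hGen hP hpt.toPt (GL.hm_un (f := f) (N := N)) (GL.hm_one f N)
  obtain ⟨SH2, hSH2⟩ := GL.genE hGen hP hpt.toPt (GL.hs_un hO4 (f := f) (N := N)) (GL.hs_one f N)
  obtain ⟨-, hDM, -⟩ := hHD n t P hP f N z0 d hpt.toPt (by omega) SM SH SH2 hSM hSH hSH2
  obtain ⟨DM, hDMd⟩ : ∃ DM : ℚ, DM = dv n t P z0 d SM := ⟨_, rfl⟩
  have hDM' : DM ≤ D + ε := by
    rw [hDMd, hD, hε]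
    exact hDM
  -- the action
  have hact : ∀ (σ : Gal(Om/ℚ)) (h : OO n t), Cls P F N h σ → ∀ ζ : Om, ζ ^ 3 ^ N = 1 →
      σ ζ = ζ ^ (Nm h).toNat := fun σ h hc ζ hζ => (hAct n t P hP F N h σ hFok hN1 hc).1 ζ hζ
  obtain ⟨W, hW⟩ : ∃ W : Om, W = w4 ^ k * U := ⟨_, rfl⟩
  have hWh : ∀ (σ : Gal(Om/ℚ)) (h : OO n t), Cls P F N h σ → σ W = w4 ^ k * UU f N k m R χ (Nm h) :=
    fun σ h hc => by
      have h3 := hUa 1 h σ (by norm_num) hc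
      rwa [mul_one, ← hUd, ← hW] at h3
  have hone : ∀ (σ : Gal(Om/ℚ)) (h : OO n t), Cls P F N h σ → (3 : ℤ) ^ N ∣ Nm h - 1 →
      (∀ ζ : Om, ζ ^ 3 ^ N = 1 → σ ζ = ζ) ∧ σ W = W := fun σ h hc hd => by
    refine ⟨fun ζ hζ => ?_, ?_⟩
    · rw [hact σ h hc ζ hζ, Ca_pow (a := 1) hζ (Nm_nonneg h) (by exact_mod_cast hd), pow_one]
    · rw [hWh σ h hc, hUc _ 1 (Or.inl hd), ← hUd, ← hW]
  obtain ⟨ζ0, hζ0⟩ := HasEnoughRootsOfUnity.exists_primitiveRoot Om (3 ^ N)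
  obtain ⟨-, hInC, -, hInF⟩ := hIn n t P hP
  have hfix : ∀ ρ ∈ II n t P, (∀ ζ : Om, ζ ^ 3 ^ N = 1 → ρ ζ = ζ) → ρ W = W := by
    intro ρ hρ hρζ
    obtain ⟨h, hc⟩ := (hInF F N hFok hN1).1 ρ hρ
    refine (hone ρ h hc ?_).2
    have h3 := hact ρ h hc ζ0 hζ0.pow_eq_one
    rw [hρζ ζ0 hζ0.pow_eq_one] at h3
    have h4 : ζ0 ^ (Nm h - 1) = 1 := by
      have h5 : ζ0 ≠ 0 := hζ0.ne_zero (by positivity)
      rw [zpow_sub₀ h5, zpow_one, ← Int.toNat_of_nonneg (Nm_nonneg h), zpow_natCast, ← h3,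
        div_self h5]
    have h6 := (hζ0.zpow_eq_one_iff_dvd _).1 h4
    exact_mod_cast h6
  -- the system
  choose! ha ha1 using fun a (h : a ∈ As N) => hAex F a hFok h
  choose! s hs using fun a (h : a ∈ As N) =>
    hSur n t P hP F N hFok hN1 (ha a) (ha1 a h).1 (ha1 a h).2.1
  have hsζ : ∀ a ∈ As N, ∀ ζ : Om, ζ ^ 3 ^ N = 1 → s a ζ = ζ ^ a := fun a h ζ hζ => by
    rw [hact _ _ (hs a h) ζ hζ, Ca_pow hζ (Nm_nonneg _) (ha1 a h).2.2]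
  have hsW : ∀ a ∈ As N, s a W = w4 ^ k * UU f N k m R χ a := fun a h => by
    rw [hWh _ _ (hs a h), hUc _ a (Or.inl (ha1 a h).2.2)]
  obtain ⟨⟨τ, hτ, hτζ⟩, hτ2⟩ := hTau n t P hP N hN1
  have hτG := hτ2 τ hτ hτζ
  have hτi : ∀ x : Om, τ⁻¹ (τ x) = x := fun x => τ.symm_apply_apply x
  obtain ⟨ι, hι⟩ : ∃ ι : Om, ι = τ w4 / w4 := ⟨_, rfl⟩
  have hι2 : ι ^ 2 = -1 := by
    rw [hι]
    exact ((hTc n t P hP).2 τ hτ hτG).1
  have hι4 : ι ^ 4 = 1 := by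
    have h3 : ι ^ 4 = (ι ^ 2) ^ 2 := by ring
    rw [h3, hι2]
    ring
  obtain ⟨hιU, -, hιf⟩ := h4r ι hι4
  have hconj : ∀ σ ∈ II n t P, τ⁻¹ * σ * τ ∈ II n t P := fun σ hσ => hInC τ hτ σ hσ
  -- the element
  obtain ⟨κ, hκ⟩ : ∃ κ : Om, κ = θ + (-1) ^ e * θ⁻¹ := ⟨_, rfl⟩
  obtain ⟨z, hz⟩ : ∃ z : Om, z = κ * W := ⟨_, rfl⟩
  have hzσ : ∀ σ : Gal(Om/ℚ), (∀ ζ : Om, ζ ^ 3 ^ N = 1 → σ ζ = ζ) → σ W = W → σ z = z := fun σ h3 h4 => by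
    rw [hz, map_mul, hκ, map_add, map_mul, map_pow, map_neg, map_one, map_inv₀, h3 θ hθ, h4]
  have hσ1 : ∀ (σ : Gal(Om/ℚ)) (h : OO n t), Cls P F N h σ → (3 : ℤ) ^ N ∣ Nm h - 1 →
      σ (τ z) = τ z := by
    intro σ h hc hd
    obtain ⟨h3, -⟩ := hone σ h hc hd
    have h4 := hconj σ hc.mem
    have h5 : ∀ ζ : Om, ζ ^ 3 ^ N = 1 → (τ⁻¹ * σ * τ) ζ = ζ := fun ζ hζ => by
      change τ⁻¹ (σ (τ ζ)) = ζ
      rw [h3 (τ ζ) (by rw [← map_pow, hζ, map_one]), hτi]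
    have h6 := hzσ _ h5 (hfix _ h4 h5)
    have h7 : τ ((τ⁻¹ * σ * τ) z) = σ (τ z) := τ.apply_symm_apply _
    rw [← h7, h6]
  have hsτ : ∀ a ∈ As N, s a (τ z) = τ (s a z) := by
    intro a h
    have h4 : (s a)⁻¹ * (τ⁻¹ * s a * τ) ∈ II n t P :=
      mul_mem (inv_mem (hs a h).mem) (hconj _ (hs a h).mem)
    have h5 : ∀ ζ : Om, ζ ^ 3 ^ N = 1 → ((s a)⁻¹ * (τ⁻¹ * s a * τ)) ζ = ζ := fun ζ hζ => by
      change (s a)⁻¹ (τ⁻¹ (s a (τ ζ))) = ζ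
      rw [hsζ a h (τ ζ) (by rw [← map_pow, hζ, map_one]), ← map_pow, hτi, ← hsζ a h ζ hζ]
      exact (s a).symm_apply_apply ζ
    have h6 := hzσ _ h5 (hfix _ h4 h5)
    have h7 : s a (((s a)⁻¹ * (τ⁻¹ * s a * τ)) z) = τ⁻¹ (s a (τ z)) :=
      (s a).apply_symm_apply _
    rw [h6] at h7
    rw [h7]
    exact (τ.apply_symm_apply _).symm
  -- traces
  have hTr : ∀ x : Om, (∀ (σ : Gal(Om/ℚ)) (h : OO n t), Cls P F N h σ → (3 : ℤ) ^ N ∣ Nm h - 1 →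
      σ x = x) → (GE P (1 / 4 + DM) x → GE P N (∑ a ∈ As N, s a x)) ∧
        (GE P (3 / 4 + DM) x → GE P (N + 1 / 2) (∑ a ∈ As N, s a x)) := by
    intro x hx1
    rw [hDMd]
    exact hTrN n t P hP f N z0 d hpt.toPt SM hSM F hFok hfF (As N) s
      (fun a h => ⟨ha a, hs a h, (ha1 a h).2.2⟩) (fun h h3 _ => hAcov h h3)
      (fun a h a' h' hd => hAuni a h a' h' (Or.inl hd)) x fun σ h hc hh => hx1 σ h hc hh.2.2
  -- valuations
  have hwg : GE P (1 / 4) w4 := Or.inr hwv.ge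
  have hsg : VP P ((-1 : Om) ^ e) := (DI.VP.one.neg).pow e
  have hκV : VP P κ := by
    rw [hκ]
    exact hθu.1.add (hsg.mul (DI.UP.inv hθu).1)
  have hκw : GE P (1 / 4 + 2 * ε) (κ * w4 ^ k) := by
    rcases hk with hk | hk
    · obtain ⟨-, h3⟩ := hθk hk
      have he1 := hke hk
      have h4 : κ = (θ ^ 2 - 1) * θ⁻¹ := by
        rw [hκ, he1]
        field_simp
        ring
      have h5 : GE P (2 * ε) κ := by
        rw [h4]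
        refine DL.GE.mul_right h2 (Or.inr ?_) (DI.UP.inv hθu).1
        refine le_trans (le_of_eq ?_) h3
        rw [hε]
        ring
      rw [hk, pow_one]
      exact DL.GE.mono (DL.GE.mul h2 h5 hwg) (by linarith)
    · rw [hk, pow_two]
      exact DL.GE.mono (DL.GE.mul_left h2 hκV (DL.GE.mul h2 hwg hwg)) (by linarith)
  have hzg : GE P (1 / 4 + DM) z := by
    have e1 : z = (κ * w4 ^ k) * U := by rw [hz, hW]; ring
    rw [e1]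
    exact DL.GE.mono (DL.GE.mul h2 hκw hU) (by linarith)
  obtain ⟨E, hE⟩ : ∃ E : Om, E = U - ι * τ U := ⟨_, rfl⟩
  have hEg : GE P (1 / 2 + D - ε) E := by
    rw [hE, hι]
    exact hUτ τ hτ hτζ
  have hτU : τ U = -ι * (U - E) := by
    rw [hE]
    linear_combination (τ U) * hι2
  have hτw4 : τ w4 = ι * w4 := by
    rw [hι]
    field_simp
  have hs2 : ((-1 : Om) ^ e) * (-1) ^ e = 1 := by
    rw [← mul_pow]
    norm_num
  have hτκ : τ κ = (-1) ^ e * κ := by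
    rw [hκ, map_add, map_mul, map_pow, map_neg, map_one, map_inv₀, hτζ θ hθ, inv_inv]
    generalize (-1 : Om) ^ e = sg at hs2 ⊢
    linear_combination (-θ⁻¹) * hs2
  obtain ⟨c0, hc0⟩ : ∃ c0 : Om, c0 = (-1) ^ e * ι ^ (k + 1) := ⟨_, rfl⟩
  have hc0V : VP P c0 := by
    rw [hc0]
    exact hsg.mul (hιU.1.pow _)
  obtain ⟨z', hz'⟩ : ∃ z' : Om, z' = τ z + c0 * z := ⟨_, rfl⟩
  have hz'E : z' = c0 * ((κ * w4 ^ k) * E) := by
    rw [hz', hz, map_mul, hτκ, hW, map_mul, map_pow, hτw4, hτU, hc0, mul_pow, pow_succ]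
    ring
  have hz'g : GE P (3 / 4 + DM) z' := by
    rw [hz'E]
    exact DL.GE.mono (DL.GE.mul_left h2 hc0V (DL.GE.mul h2 hκw hEg)) (by linarith)
  have hc0σ : ∀ σ ∈ P.inertia Gal(Om/ℚ), σ c0 = c0 := fun σ hσ => by
    rw [hc0, map_mul, map_pow, map_neg, map_one, map_pow, hιf σ hσ]
  obtain ⟨S1, hS1⟩ : ∃ S1 : Om, S1 = ∑ a ∈ As N, s a z := ⟨_, rfl⟩
  have hS1g : GE P N S1 := by
    rw [hS1]
    exact (hTr z fun σ h hc hd => hzσ σ (hone σ h hc hd).1 (hone σ h hc hd).2).1 hzg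
  have hS1' : GE P (N + 1 / 2) (τ S1 + c0 * S1) := by
    have h3 : ∑ a ∈ As N, s a z' = τ S1 + c0 * S1 := by
      rw [hS1, map_sum, Finset.mul_sum, ← Finset.sum_add_distrib]
      refine Finset.sum_congr rfl fun a h => ?_
      rw [hz', map_add, map_mul, hsτ a h, hc0σ _ (hs a h).mem.1]
    rw [← h3]
    refine (hTr z' fun σ h hc hd => ?_).2 hz'g
    rw [hz', map_add, map_mul, hσ1 σ h hc hd, hc0σ σ hc.mem.1,
      hzσ σ (hone σ h hc hd).1 (hone σ h hc hd).2]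
  -- division by `3 ^ N`
  have h30 : (3 : Om) ^ N ≠ 0 := pow_ne_zero N three_ne_zero
  have hvl : DL.vl P 3 ((3 : Om) ^ N) = N := by
    have h3 := DL.vl_two_pow h2 N
    exact_mod_cast h3
  obtain ⟨x, hx⟩ : ∃ x : Om, x = (3 ^ N)⁻¹ * S1 := ⟨_, rfl⟩
  have hxV : VP P x := by
    have h3 := DL.GE.div h2 hS1g h30
    rw [hvl, sub_self, div_eq_inv_mul, ← hx] at h3
    exact (DL.GE.vp_iff h2).1 h3
  have hxM : MP P (τ x + c0 * x) := by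
    have h3 := DL.GE.div h2 hS1' h30
    rw [hvl] at h3
    have e1 : (τ S1 + c0 * S1) / 3 ^ N = τ x + c0 * x := by
      rw [hx, map_mul, map_inv₀, map_pow, map_ofNat]
      ring
    rw [e1] at h3
    exact DL.GE.mp h2 h3 (by linarith)
  have hxM2 : MP P ((1 + c0) * x) := by
    have e1 : (1 + c0) * x = (τ x + c0 * x) - (τ x - x) := by ring
    rw [e1]
    exact DI.MP.sub hxM (DI.VP.inertia hτ hxV)
  have h2x : MP P (2 * x) := by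
    rcases hk with hk | hk
    · have h3 : c0 = 1 := by
        rw [hc0, hk, hke hk]
        linear_combination -hι2
      rw [h3] at hxM2
      have e1 : (2 : Om) * x = (1 + 1) * x := by ring
      rwa [e1]
    · have h3 : c0 = -((-1) ^ e * ι) := by
        rw [hc0, hk]
        linear_combination ((-1) ^ e * ι) * hι2
      have h4 : (2 : Om) * x = (1 + (-1) ^ e * ι) * ((1 + c0) * x) := by
        rw [h3]
        linear_combination (x * ι ^ 2) * hs2 + x * hι2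
      rw [h4]
      exact DI.MP.mul_left (DI.VP.one.add (hsg.mul hιU.1)) hxM2
  have hgoal : w4 ^ k * ((3 ^ N)⁻¹ * ∑ a ∈ As N, (θ ^ a + (-1) ^ e * (θ ^ a)⁻¹) * UU f N k m R χ a) = x := by
    have h3 : S1 = w4 ^ k * ∑ a ∈ As N, (θ ^ a + (-1) ^ e * (θ ^ a)⁻¹) * UU f N k m R χ a := by
      rw [hS1, Finset.mul_sum]
      refine Finset.sum_congr rfl fun a h => ?_
      rw [hz, map_mul, hsW a h, hκ, map_add, map_mul, map_pow, map_neg, map_one, map_inv₀, hsζ a h θ hθ]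
      ring
    rw [hx, h3]
    ring
  rw [hgoal]
  have h2u := w_two hPp hP.2
  have e1 : x = 2⁻¹ * (2 * x) := by
    rw [← mul_assoc, inv_mul_cancel₀ two_ne_zero, one_mul]
  rw [e1]
  exact DI.MP.mul_left (DI.UP.inv h2u).1 h2x

end Pool.Agent.DM.DU.LS
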