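import Pool.Agent.Lib.DU.LS.Spec

/-!
# Theorem DU, part LS, module Cos: sums over cosets of `Hs` (port of `DR/LS/Cos.lean` of helper71)
-/

set_option autoImplicit false

open scoped Pointwise

noncomputable section

namespace Pool.Agent.DM.DU.LS

open Pool.Agent.MuZ Pool.Agent.FW Pool.Agent.DN Pool.Agent.DM Pool.Agent.DM.DU
open Pool.Agent.DI (io ofC io_inj exists_io io_ofC ofC_io VP MP UP TP ex)
open Pool.Agent.DT (kap cbr)
open Pool.Agent.DM.G (Pm CN)
open Pool.Agent.DM.GL (GE vP pl pH IsR Un)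
open Pool.Agent.DM.DU.GL (II Cls Orb Hn Hm Hs PtN dv SS)

variable {n t : ℕ}

private theorem Cos_four {v : OO n t} {N : ℕ} (hN : 3 ≤ N) (h : ((3 ^ N : ℕ) : OO n t) ∣ v) :
    (27 : OO n t) ∣ v := by
  have h1 : ((3 ^ 3 : ℕ) : OO n t) ∣ v := CV_cast_dvd (pow_dvd_pow 3 hN) h
  exact_mod_cast h1

private theorem Cos_pp {v : OO n t} (h : (27 : OO n t) ∣ v) : v ∈ pp n t := by
  obtain ⟨c, rfl⟩ := h
  have h3 : (3 : OO n t) ∈ pp n t := Ideal.subset_span (Set.mem_insert _ _)
  have e : (27 : OO n t) * c = 3 * (9 * c) := by ring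
  rw [e]
  exact Ideal.mul_mem_right _ _ h3

private theorem Cos_one {f N : ℕ} : Hs f N (1 : OO n t) := GL.hs_one f N

private theorem Cos_mul {f N : ℕ} {h h' : OO n t} (a : Hs f N h) (b : Hs f N h') : Hs f N (h * h') := by
  obtain ⟨⟨a1, a2, a3⟩, a4⟩ := a
  obtain ⟨⟨b1, b2, b3⟩, b4⟩ := b
  have e : h * h' - 1 = (h - 1) * h' + (h' - 1) := by ring
  have h4 : (27 : OO n t) ∣ h * h' - 1 := by
    rw [e]; exact dvd_add (dvd_mul_of_dvd_left a4 _) b4
  refine ⟨⟨?_, Cos_pp h4, ?_⟩, h4⟩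
  · rw [e]; exact dvd_add (dvd_mul_of_dvd_left a1 _) b1
  · rw [Nm_mul]
    obtain ⟨u, hu⟩ := a3
    obtain ⟨v, hv⟩ := b3
    exact ⟨u * Nm h' + v, by linear_combination Nm h' * hu + hv⟩

private theorem Cos_inv {f N : ℕ} (hN : 3 ≤ N) {h : OO n t} (a : Hs f N h) :
    ∃ h' : OO n t, Hs f N h' ∧ ((f * 3 ^ N : ℕ) : OO n t) ∣ h * h' - 1 := by
  obtain ⟨⟨a1, a2, a3⟩, a4⟩ := a
  have c1 : Cop h f := CV_cop_of_dvd a1
  have c2 : Cop h (3 ^ N) := by
    unfold Cop
    push_cast
    obtain ⟨c, hc⟩ := a3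
    refine IsCoprime.pow_right ?_
    obtain ⟨N', rfl⟩ : ∃ N', N = N' + 1 := ⟨N - 1, by omega⟩
    refine ⟨1, -(3 ^ N' * c), ?_⟩
    rw [pow_succ] at hc
    linear_combination hc
  have c3 : Cop h (f * 3 ^ N) := by
    unfold Cop at *
    push_cast at *
    exact IsCoprime.mul_right c1 c2
  obtain ⟨b, -, hb⟩ := cop_inv c3
  have hb1 : (f : OO n t) ∣ h * b - 1 := CV_cast_dvd (Dvd.intro _ rfl : f ∣ f * 3 ^ N) hb
  have hb2 : ((3 ^ N : ℕ) : OO n t) ∣ h * b - 1 := CV_cast_dvd (Dvd.intro_left _ rfl : 3 ^ N ∣ f * 3 ^ N) hb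
  have e : b - 1 = (h * b - 1) - (h - 1) * b := by ring
  have h3 := Nm_congr hb2
  rw [Nm_mul, Nm_one] at h3
  push_cast at h3
  have h4 : (27 : OO n t) ∣ b - 1 := by
    rw [e]; exact dvd_sub (Cos_four hN hb2) (dvd_mul_of_dvd_left a4 _)
  refine ⟨b, ⟨⟨?_, Cos_pp h4, ?_⟩, h4⟩, hb⟩
  · rw [e]; exact dvd_sub hb1 (dvd_mul_of_dvd_left a1 _)
  · obtain ⟨c, hc⟩ := h3
    obtain ⟨d, hd⟩ := a3
    exact ⟨c - d * Nm b, by linear_combination hc - Nm b * hd⟩

open Classical in
private theorem Cos_main (hBt : C_Bt) (n t : ℕ) [Ram3 n t] (f f' N : ℕ) (hf : Fok f) (hff : f ∣ f')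
    (hN : 3 ≤ N) (T : Finset (OO n t)) (hT : IsR N (Hs f' N) T) (A : Type) [AddCommGroup A] (a : OO n t → A) :
    ∀ (k : ℕ) (C : OO n t → Prop), ((Bx N).filter (fun p => C (bp f p))).card ≤ k →
      (∀ v, C v → Cop v 3) →
      (∀ v u : OO n t, C v → ((f * 3 ^ N : ℕ) : OO n t) ∣ v - u → C u) →
      (∀ v h : OO n t, C v → Hs f' N h → C (h * v)) →
      (∀ v u : OO n t, C v → (f : OO n t) ∣ v - 1 → ((f * 3 ^ N : ℕ) : OO n t) ∣ v - u → a v = a u) →
      (∀ v : OO n t, C v → (f : OO n t) ∣ v - 1 → ∑ h ∈ T, a (h * v) = 0) →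
      (∑ p ∈ Bx N, if C (bp f p) then a (bp f p) else 0) = 0 := by
  have hB := (hBt n t f N hf).1
  intro k
  induction k with
  | zero =>
    intro C hc _ _ _ _ _
    have h0 : (Bx N).filter (fun p => C (bp f p)) = ∅ := by
      rw [← Finset.card_eq_zero]; omega
    refine Finset.sum_eq_zero fun p hp => ?_
    rw [if_neg]
    intro hC
    have : p ∈ (Bx N).filter (fun p => C (bp f p)) := Finset.mem_filter.2 ⟨hp, hC⟩
    rw [h0] at this
    exact absurd this (Finset.notMem_empty p)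
  | succ k ih =>
    intro C hc h1 h2 h3 h4 h5
    by_cases hne : ((Bx N).filter (fun p => C (bp f p))).Nonempty
    · obtain ⟨p0, hp0⟩ := hne
      obtain ⟨hp0B, hp0C⟩ := Finset.mem_filter.1 hp0
      obtain ⟨v0, hv0⟩ : ∃ v0 : OO n t, v0 = bp f p0 := ⟨_, rfl⟩
      rw [← hv0] at hp0C
      have hv0f : (f : OO n t) ∣ v0 - 1 := by rw [hv0]; exact hB.mem p0 hp0B
      let G : OO n t → Prop := fun v => ∃ h : OO n t, Hs f' N h ∧ ((f * 3 ^ N : ℕ) : OO n t) ∣ v - h * v0
      have hGC : ∀ v, G v → C v := by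
        rintro v ⟨h, hh, hv⟩
        refine h2 (h * v0) v (h3 _ _ hp0C hh) ?_
        rw [← neg_sub]
        exact (dvd_neg).2 hv
      have hG0 : G v0 := ⟨1, Cos_one, by rw [one_mul, sub_self]; exact dvd_zero _⟩
      have hGcong : ∀ v u : OO n t, G u → ((f * 3 ^ N : ℕ) : OO n t) ∣ v - u → G v := by
        rintro v u ⟨h, hh, hu⟩ hvu
        refine ⟨h, hh, ?_⟩
        have e : v - h * v0 = (v - u) + (u - h * v0) := by ring
        rw [e]
        exact dvd_add hvu hu
      have hGmul : ∀ v h : OO n t, Hs f' N h → G (h * v) → G v := by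
        rintro v h hh ⟨h1', hh1, hv⟩
        obtain ⟨h'', hh'', hi⟩ := Cos_inv hN hh
        have hi' : ((f * 3 ^ N : ℕ) : OO n t) ∣ h * h'' - 1 :=
          CV_cast_dvd (mul_dvd_mul_right hff _) hi
        refine ⟨h'' * h1', Cos_mul hh'' hh1, ?_⟩
        have e : v - h'' * h1' * v0 = h'' * (h * v - h1' * v0) - (h * h'' - 1) * v := by ring
        rw [e]
        exact dvd_sub (dvd_mul_of_dvd_right hv _) (dvd_mul_of_dvd_left hi' _)
      -- the smaller class
      obtain ⟨C', hC'⟩ : ∃ C' : OO n t → Prop, ∀ v, C' v ↔ (C v ∧ ¬ G v) := ⟨_, fun _ => Iff.rfl⟩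
      have hsub : ((Bx N).filter (fun p => C' (bp f p))).card <
          ((Bx N).filter (fun p => C (bp f p))).card := by
        refine Finset.card_lt_card ?_
        rw [Finset.ssubset_iff_of_subset]
        · refine ⟨p0, hp0, ?_⟩
          intro h
          exact ((hC' _).1 (Finset.mem_filter.1 h).2).2 (by rw [← hv0]; exact hG0)
        · intro p hp
          obtain ⟨q1, q2⟩ := Finset.mem_filter.1 hp
          exact Finset.mem_filter.2 ⟨q1, ((hC' _).1 q2).1⟩
      have hI := ih C' (by omega) (fun v hv => h1 v ((hC' _).1 hv).1)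
        (fun v u hv hvu => (hC' _).2 ⟨h2 v u ((hC' _).1 hv).1 hvu, fun hu => ((hC' _).1 hv).2 (hGcong v u hu hvu)⟩)
        (fun v h hv hh => (hC' _).2 ⟨h3 v h ((hC' _).1 hv).1 hh, fun hu => ((hC' _).1 hv).2 (hGmul v h hh hu)⟩)
        (fun v u hv hf1 hvu => h4 v u ((hC' _).1 hv).1 hf1 hvu)
        (fun v hv hf1 => h5 v ((hC' _).1 hv).1 hf1)
      have hsplit : ∀ p ∈ Bx N, (if C (bp f p) then a (bp f p) else 0) =
          (if C' (bp f p) then a (bp f p) else 0) + (if G (bp f p) then a (bp f p) else 0) := by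
        intro p _
        by_cases hg : G (bp f p)
        · have hc' := hGC _ hg
          rw [if_pos hc', if_neg (fun h => ((hC' _).1 h).2 hg), if_pos hg, zero_add]
        · by_cases hc' : C (bp f p)
          · rw [if_pos hc', if_pos ((hC' _).2 ⟨hc', hg⟩), if_neg hg, add_zero]
          · rw [if_neg hc', if_neg (fun h => hc' ((hC' _).1 h).1), if_neg hg, add_zero]
      rw [Finset.sum_congr rfl hsplit, Finset.sum_add_distrib, hI, zero_add, ← Finset.sum_filter]
      have hR1 : RpI (fun v : OO n t => (f : OO n t) ∣ v - 1 ∧ G v) (f * 3 ^ N)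
          ((Bx N).filter (fun p => G (bp f p))) (bp f) := by
        refine ⟨?_, ?_, ?_⟩
        · intro p hp
          obtain ⟨q1, q2⟩ := Finset.mem_filter.1 hp
          exact ⟨hB.mem p q1, q2⟩
        · intro p hp q hq h
          exact hB.inj p (Finset.mem_filter.1 hp).1 q (Finset.mem_filter.1 hq).1 h
        · rintro v ⟨hv1, hv2⟩
          obtain ⟨p, hp, hvp⟩ := hB.ex v hv1
          refine ⟨p, Finset.mem_filter.2 ⟨hp, hGcong (bp f p) v hv2 ?_⟩, hvp⟩
          rw [← neg_sub]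
          exact (dvd_neg).2 hvp
      have hR2 : RpI (fun v : OO n t => (f : OO n t) ∣ v - 1 ∧ G v) (f * 3 ^ N) T (fun h => h * v0) := by
        refine ⟨?_, ?_, ?_⟩
        · intro h hh
          have hq := hT.mem h hh
          refine ⟨?_, h, hq, by rw [sub_self]; exact dvd_zero _⟩
          have e : h * v0 - 1 = h * (v0 - 1) + (h - 1) := by ring
          change (f : OO n t) ∣ h * v0 - 1
          rw [e]
          exact dvd_add (dvd_mul_of_dvd_right hv0f _) (CV_cast_dvd hff hq.1.1)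
        · intro h hh h' hh' hd
          refine hT.uni h hh h' hh' ?_
          have hd2 : ((3 ^ N : ℕ) : OO n t) ∣ v0 * (h - h') := by
            have e : v0 * (h - h') = h * v0 - h' * v0 := by ring
            rw [e]
            exact CV_cast_dvd (Dvd.intro_left _ rfl : 3 ^ N ∣ f * 3 ^ N) hd
          refine Rp_canc ?_ hd2
          have c1 := h1 v0 hp0C
          unfold Cop at c1 ⊢
          push_cast at c1 ⊢
          exact c1.pow_right
        · rintro v ⟨hv1, h, hh, hv⟩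
          obtain ⟨h', hh', hd⟩ := hT.ex h hh
          refine ⟨h', hh', ?_⟩
          have hq' := hT.mem h' hh'
          have hd1 : (f : OO n t) ∣ h - h' := by
            have e : h - h' = (h - 1) - (h' - 1) := by ring
            rw [e]
            exact dvd_sub (CV_cast_dvd hff hh.1.1) (CV_cast_dvd hff hq'.1.1)
          have hcop : f.Coprime (3 ^ N) := Nat.Coprime.pow_right N hf.cop
          have hd2 := CV_cast_mul hcop hd1 hd
          have e : v - h' * v0 = (v - h * v0) + (h - h') * v0 := by ring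
          change ((f * 3 ^ N : ℕ) : OO n t) ∣ v - h' * v0
          rw [e]
          exact dvd_add hv (dvd_mul_of_dvd_left hd2 _)
      have hS := RpI.sum hR1 hR2 a (fun v u hv _ hvu => h4 v u (hGC v hv.2) hv.1 hvu)
      rw [hS]
      exact h5 v0 hp0C hv0f
    · rw [Finset.not_nonempty_iff_eq_empty] at hne
      refine Finset.sum_eq_zero fun p hp => ?_
      rw [if_neg]
      intro hC
      have : p ∈ (Bx N).filter (fun p => C (bp f p)) := Finset.mem_filter.2 ⟨hp, hC⟩
      rw [hne] at this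
      exact absurd this (Finset.notMem_empty p)

theorem tCos : S_Cos := by
  intro hBt n t hI f f' N hf hf' hff hN T hT A hA a C h1 h2 h3 h4 h5
  classical
  exact Cos_main hBt n t f f' N hf hff hN T hT A a _ C le_rfl h1 h2 h3 h4 h5

end Pool.Agent.DM.DU.LS
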