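import Pool.Agent.Lib.DU.LS.Spec

/-!
# Theorem DU, part LS: Fou, the formula for `xs` (author helper46, after `DM/GC/Fou.lean` of helper67)
-/

set_option autoImplicit false

open scoped Pointwise

noncomputable section

namespace Pool.Agent.DM.DU.LS

open Pool.Agent.MuZ Pool.Agent.FW Pool.Agent.DN Pool.Agent.DM Pool.Agent.DM.DU
open Pool.Agent.DI (io ofC io_inj exists_io io_ofC ofC_io VP MP UP TP ex)
open Pool.Agent.DT (kap cbr)
open Pool.Agent.DM.G (Pm CN)
open Pool.Agent.DM.GL (GE vP pl pH IsR Un)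
open Pool.Agent.DM.DU.GL (II Cls Orb Hn Hm Hs PtN dv SS)

variable {n t : ℕ}

/-- The summand. -/
private def Ph (f N k : ℕ) (m b : Ideal (OO n t)) (c : ℤ) (v : OO n t) : Om :=
  (zs v : Om) ^ k * (zet (3 ^ (N - 1)) ^ (c * (NI m * NI b * Nm v)) * gO m b (toC v / (f * 3 ^ N : ℕ)))

private theorem ga3 (f x y : ℕ) : (⟨1 + 3 * f * x, 3 * f * y⟩ : OO n t) = ga (3 * f) x y := by
  unfold ga
  push_cast
  rfl

open Classical in
private theorem et_eq (h4 : S_C4) (hG : C_Gb) (hB : C_Bt) [Ram3 n t]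
    {P : Ideal ZZ} (hP : Ab3 P) {f N : ℕ} (k : ℕ) {m b : Ideal (OO n t)} (hm : FM f m) (hb : FB f b)
    (hN : 2 ≤ N) (c : ℤ) :
    etE f k m b (c / 3 ^ (N - 2)) = (3 ^ (N - 1) : Om)⁻¹ *
      ∑ p ∈ (Bx N).filter (fun p => Cop (bp (n := n) (t := t) f p) 3), Ph f N k m b c (bp f p) := by
  have hf := hm.toFok
  obtain ⟨-, -, -, -, -, -, -, hn3, -⟩ := w_fm hm
  have hq0 : 0 < 3 ^ (N - 1) := by positivity
  have hM : f * 3 ^ N = 3 * f * 3 ^ (N - 1) := by
    obtain ⟨N', rfl⟩ : ∃ N', N = N' + 1 := ⟨N - 1, by omega⟩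
    rw [Nat.add_sub_cancel, pow_succ]
    ring
  obtain ⟨-, hB2⟩ := hB n t f N hf
  obtain ⟨hB2, hB3⟩ := hB2 (by omega)
  have hg := hG n t P hP f N m b hm (by omega) hb
  -- periodicity
  have hper : ∀ v u : OO n t, ((f : OO n t) ∣ v - 1 ∧ Cop v 3) → ((f : OO n t) ∣ u - 1 ∧ Cop u 3) →
      ((f * 3 ^ N : ℕ) : OO n t) ∣ v - u → Ph f N k m b c v = Ph f N k m b c u := by
    intro v u hv hu hvu
    have e1 : zs v = zs u := by
      refine w_zs_congr ?_
      exact w_dvd3 ⟨f * 3 ^ (N - 1), by rw [hM]; ring⟩ hvu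
    have e2 : zet (3 ^ (N - 1)) ^ (c * (NI m * NI b * Nm v)) =
        zet (3 ^ (N - 1)) ^ (c * (NI m * NI b * Nm u)) := by
      refine CV_zet_congr hq0 ?_
      have h0 := CV_cast_dvd (M := 3 ^ (N - 1)) ⟨3 * f, by rw [hM]; ring⟩ hvu
      have h1 := Nm_congr h0
      have e : c * (NI m * NI b * Nm v) - c * (NI m * NI b * Nm u) =
          (Nm v - Nm u) * (c * (NI m * NI b)) := by ring
      rw [e]
      exact dvd_mul_of_dvd_left h1 _
    have e3 := (hg.2.2.1 v u hvu).1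
    unfold Ph
    rw [e1, e2, e3]
  have key : ∀ α ∈ tm n t f, (zs α : Om) ^ k * etaM (3 * f) m (sp α * b) ((c / 3 ^ (N - 2) : ℚ) / 3) =
      (3 ^ (N - 1) : Om)⁻¹ *
        ∑ p ∈ Bx (N - 1), Ph f N k m b c (α * ga (3 * f) p.1 p.2) := by
    intro α hα
    obtain ⟨hα1, hα2⟩ := w_tm hf hα
    have hαc := w_tm_cop hf hα
    have hfb : FB f (sp α * b) := w_fb_mul (w_fb_sp hf.pos hαc) hb
    have hpr : PrI (sp α * b) (3 ^ (N - 1)) := CV_pri_pow (w_fb hm hfb).2.2.2.1 (N - 1)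
    have hqc : (3 ^ (N - 1)).Coprime (NI m) := Nat.Coprime.pow_left _ hn3.symm
    have hr : ((c / 3 ^ (N - 2) : ℚ) / 3) = ((c : ℚ) / ((3 ^ (N - 1) : ℕ) : ℚ)) := by
      obtain ⟨N', rfl⟩ : ∃ N', N = N' + 2 := ⟨N - 2, by omega⟩
      rw [show N' + 2 - 2 = N' from rfl, show N' + 2 - 1 = N' + 1 from rfl]
      push_cast
      rw [pow_succ, div_div]
    rw [hr, (h4 n t f m (sp α * b) hm hfb c (3 ^ (N - 1)) hq0 hqc).2.2 hpr]
    unfold Bx
    have e1 : ((3 ^ (N - 1) : ℕ) : Om) = 3 ^ (N - 1) := by push_cast; rfl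
    rw [Finset.sum_product, one_div, e1, mul_left_comm]
    congr 1
    rw [Finset.mul_sum]
    refine Finset.sum_congr rfl fun x _ => ?_
    rw [Finset.mul_sum]
    refine Finset.sum_congr rfl fun y _ => ?_
    rw [ga3]
    change (zs α : Om) ^ k * (zet (3 ^ (N - 1)) ^ (c * (NI m * NI (sp α * b) *
      Nm (ga (n := n) (t := t) (3 * f) x y))) * gO m (sp α * b)
        (toC (ga (n := n) (t := t) (3 * f) x y) / (3 * f * 3 ^ (N - 1) : ℕ))) =
      Ph f N k m b c (α * ga (3 * f) x y)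
    have hu1 := ga_sub_one (n := n) (t := t) (3 * f) x y
    generalize ga (n := n) (t := t) (3 * f) x y = u at hu1 ⊢
    have e2 : zs α = zs (α * u) := by
      refine w_zs_congr ?_
      have h1 := w_dvd3 (Dvd.intro _ rfl) hu1
      have e : α - α * u = -(α * (u - 1)) := by ring
      rw [e]
      exact (dvd_mul_of_dvd_right h1 _).neg_right
    have e3 : c * (NI m * NI (sp α * b) * Nm u) = c * (NI m * NI b * Nm (α * u)) := by
      rw [CV_NI_mul, Nm_mul, ← CV_NI_sp α]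
      push_cast
      ring
    have e4 := hg.2.2.2.2.1 α u hα1 hα2
    unfold Ph
    rw [e3, ← hM, e4, ← e2]
  unfold etE
  rw [Finset.sum_congr rfl key, ← Finset.mul_sum]
  congr 1
  have e := hB2.sum hB3 (Ph f N k m b c) hper
  rw [e, Finset.sum_product]

/-- The factor. -/
private def zc (N e ν : ℕ) (c a : ℤ) : Om :=
  zet (3 ^ (N - 1)) ^ (c * ν * a) + (-1) ^ e * zet (3 ^ (N - 1)) ^ (-(c * ν * a))

private theorem sg (e : ℕ) : ((-1 : Om) ^ e) * (-1) ^ e = 1 := by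
  rw [← mul_pow]
  norm_num

private theorem zq {N : ℕ} {x y : ℤ} (h : (3 : ℤ) ^ N ∣ x - y) :
    zet (3 ^ (N - 1)) ^ x = zet (3 ^ (N - 1)) ^ y := by
  refine CV_zet_congr (by positivity) (dvd_trans ?_ h)
  push_cast
  exact pow_dvd_pow 3 (Nat.sub_le N 1)

private theorem zc_pos {N e ν : ℕ} {c a s : ℤ} (h : (3 : ℤ) ^ N ∣ s - a) : zc N e ν c a = zc N e ν c s := by
  unfold zc
  rw [zq (x := c * ν * a) (y := c * ν * s) (by
        have e1 : c * ν * a - c * ν * s = (s - a) * (-(c * ν)) := by ring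
        rw [e1]
        exact dvd_mul_of_dvd_left h _),
      zq (x := -(c * ν * a)) (y := -(c * ν * s)) (by
        have e1 : -(c * ν * a) - -(c * ν * s) = (s - a) * (c * ν) := by ring
        rw [e1]
        exact dvd_mul_of_dvd_left h _)]

private theorem zc_neg {N e ν : ℕ} {c a s : ℤ} (h : (3 : ℤ) ^ N ∣ s + a) :
    zc N e ν c a = (-1) ^ e * zc N e ν c s := by
  unfold zc
  rw [zq (x := c * ν * a) (y := -(c * ν * s)) (by
        have e1 : c * ν * a - -(c * ν * s) = (s + a) * (c * ν) := by ring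
        rw [e1]
        exact dvd_mul_of_dvd_left h _),
      zq (x := -(c * ν * a)) (y := c * ν * s) (by
        have e1 : -(c * ν * a) - c * ν * s = (s + a) * (-(c * ν)) := by ring
        rw [e1]
        exact dvd_mul_of_dvd_left h _)]
  have h1 := sg e
  linear_combination (-zet (3 ^ (N - 1)) ^ (-(c * ν * s))) * h1

private theorem mem_As {N a : ℕ} : a ∈ As N ↔ a < 3 ^ N ∧ a % 3 = 1 := by
  unfold As
  rw [Finset.mem_filter, Finset.mem_range]

/-- `κ_s (-1)^(e [s = -1])`. -/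
private def sgn (e : ℕ) (s : ℤ) : Om := if s % 3 = 1 then 1 else (-1) ^ e

open Classical in
private theorem as_sum (n t : ℕ) (hO : C_Nrm) [Ram3 n t] {N e ν : ℕ} (hN : 1 ≤ N) (c s : ℤ) :
    (∑ a ∈ As N, zc N e ν c a * (if Pm N s a then (1 : Om) else 0)) =
      if (3 : ℤ) ∣ s then 0 else sgn e s * zc N e ν c s := by
  obtain ⟨o1, o2, o3, -, -⟩ := hO n t N hN
  have h3 : (3 : ℤ) ∣ 3 ^ N := dvd_pow_self 3 (by omega)
  by_cases hs : (3 : ℤ) ∣ s
  · rw [if_pos hs]
    refine Finset.sum_eq_zero fun a ha => ?_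
    rw [if_neg, mul_zero]
    rintro (h | h)
    · have h1 := dvd_sub hs (dvd_trans h3 h)
      rw [show s - (s - (a : ℤ)) = a by ring] at h1
      exact o3 a ha h1
    · have h1 := dvd_sub (dvd_trans h3 h) hs
      rw [show s + (a : ℤ) - s = a by ring] at h1
      exact o3 a ha h1
  · rw [if_neg hs]
    obtain ⟨a, ha, h⟩ := o1 s hs
    have ha1 := (mem_As.1 ha).2
    rw [Finset.sum_eq_single a]
    · rw [if_pos h, mul_one]
      unfold sgn
      rcases h with h | h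
      · have h1 := dvd_trans h3 h
        rw [if_pos (by omega), one_mul, zc_pos h]
      · have h1 := dvd_trans h3 h
        rw [if_neg (by omega), zc_neg h]
    · intro a' ha' hne
      rw [if_neg, mul_zero]
      intro h'
      apply hne
      refine o2 a' ha' a ha ?_
      rcases h with h | h <;> rcases h' with h' | h'
      · left
        have h1 := dvd_sub h h'
        rwa [show s - (a : ℤ) - (s - a') = a' - a by ring] at h1
      · right
        have h1 := dvd_sub h' h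
        rwa [show s + (a' : ℤ) - (s - a) = a' + a by ring] at h1
      · right
        have h1 := dvd_sub h h'
        rwa [show s + (a : ℤ) - (s - a') = a' + a by ring] at h1
      · left
        have h1 := dvd_sub h' h
        rwa [show s + (a' : ℤ) - (s + a) = a' - a by ring] at h1
    · intro h1
      exact absurd ha h1

/-- The sum for one class. -/
private def Tb (f N k : ℕ) (m b : Ideal (OO n t)) (χb : Om) (a : ℤ) : Om := by
  classical
  exact ∑ p ∈ Bx N, if Pm N (NI b * Nm (bp (n := n) (t := t) f p)) a then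
    χb * ((zs (bp (n := n) (t := t) f p) : Om) ^ k * gB f N m b (bp f p)) else 0

open Classical in
private theorem b_eq (hO4 : S_O4) (hO : C_Nrm) [Ram3 n t] {f N : ℕ} (k e : ℕ) {m b : Ideal (OO n t)}
    (χb : Om) (hm : FM f m) (hb : FB f b) (hN : 2 ≤ N) (c : ℤ) :
    χb * oN b ^ e * rO ⊤ b * (∑ p ∈ (Bx N).filter (fun p => Cop (bp (n := n) (t := t) f p) 3),
      (Ph f N k m b c (bp f p) + (-1) ^ e * Ph f N k m b (-c) (bp f p))) =
    ∑ a ∈ As N, zc N e (NI m) c a * Tb f N k m b χb a := by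
  have hcop : ∀ v : OO n t, Cop v 3 ↔ ¬ (3 : ℤ) ∣ Nm v := (hO4 n t).2.2.2.2.2.2.2.2.2.1
  have hnm : ∀ v : OO n t, Cop v 3 → (3 : ℤ) ∣ Nm v - 1 := (hO4 n t).2.2.2.2.2.2.2.2.2.2.1
  have hb3 : ¬ (3 : ℤ) ∣ (NI b : ℤ) := by
    have h := (w_fb hm hb).2.2.2.1
    have h1 := (CV_NI_cop (n := n) (t := t) (a := b) (N := 3) (by norm_num)).1 h
    exact w_cop3.1 h1
  have e2 : ∀ a ∈ As N, zc N e (NI m) c a * Tb f N k m b χb a =
      ∑ p ∈ Bx N, (χb * ((zs (bp (n := n) (t := t) f p) : Om) ^ k * gB f N m b (bp f p))) *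
        (zc N e (NI m) c a *
          (if Pm N (NI b * Nm (bp (n := n) (t := t) f p)) a then (1 : Om) else 0)) := by
    intro a _
    unfold Tb
    rw [Finset.mul_sum]
    refine Finset.sum_congr rfl fun p _ => ?_
    by_cases h : Pm N (NI b * Nm (bp (n := n) (t := t) f p)) a
    · rw [if_pos h, if_pos h]
      ring
    · rw [if_neg h, if_neg h]
      ring
  rw [Finset.sum_congr rfl e2, Finset.sum_comm, Finset.sum_filter, Finset.mul_sum]
  refine Finset.sum_congr rfl fun p _ => ?_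
  rw [← Finset.mul_sum, as_sum n t hO (by omega) c (NI b * Nm (bp (n := n) (t := t) f p))]
  by_cases h : Cop (bp (n := n) (t := t) f p) 3
  · have h1 : ¬ (3 : ℤ) ∣ (NI b : ℤ) * Nm (bp (n := n) (t := t) f p) := by
      intro h2
      rcases Int.prime_three.dvd_or_dvd h2 with h3 | h3
      · exact hb3 h3
      · exact (hcop _).1 h h3
    have h4 : sgn e (NI b * Nm (bp (n := n) (t := t) f p)) = oN b ^ e := by
      have h5 : (3 : ℤ) ∣ (NI b : ℤ) * Nm (bp (n := n) (t := t) f p) - NI b := by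
        have h6 := hnm _ h
        have h7 : (NI b : ℤ) * Nm (bp (n := n) (t := t) f p) - NI b =
            NI b * (Nm (bp (n := n) (t := t) f p) - 1) := by ring
        rw [h7]
        exact dvd_mul_of_dvd_right h6 _
      unfold sgn oN
      by_cases h8 : NI b % 3 = 1
      · rw [if_pos (by omega), if_pos h8, one_pow]
      · rw [if_neg (by omega), if_neg h8, if_pos (by omega)]
    rw [if_pos h, if_neg h1, h4]
    unfold Ph gB zc
    generalize (bp f p : OO n t) = v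
    have e3 : c * (NI m * NI b * Nm v) = c * NI m * (NI b * Nm v) := by ring
    have e4 : -c * (NI m * NI b * Nm v) = -(c * NI m * (NI b * Nm v)) := by ring
    rw [e3, e4]
    ring
  · have h1 : (3 : ℤ) ∣ (NI b : ℤ) * Nm (bp (n := n) (t := t) f p) := by
      refine dvd_mul_of_dvd_right ?_ _
      by_contra h2
      exact h ((hcop _).2 h2)
    rw [if_neg h, if_pos h1, mul_zero, mul_zero]

theorem tFou : S_Fou := by
  classical
  intro hO4 h4 hG hB hO n t _ P hP f N k e m R χ hm hR hN c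
  have e0 : (-((c : ℚ) / 3 ^ (N - 2))) = ((-c : ℤ) : ℚ) / 3 ^ (N - 2) := by
    push_cast
    ring
  have key : ∀ b ∈ R, tw e χ b * rO ⊤ b * (etE f k m b ((c : ℚ) / 3 ^ (N - 2)) +
      (-1) ^ e * etE f k m b (-((c : ℚ) / 3 ^ (N - 2)))) = (3 ^ (N - 1) : Om)⁻¹ *
      ∑ a ∈ As N, zc N e (NI m) c a * Tb f N k m b (χ b) a := by
    intro b hb
    rw [e0, et_eq h4 hG hB hP k hm (hR b hb) hN c, et_eq h4 hG hB hP k hm (hR b hb) hN (-c),
      ← b_eq hO4 hO k e (χ b) hm (hR b hb) hN c, Finset.sum_add_distrib, ← Finset.mul_sum]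
    unfold tw
    ring
  have e2 : (3 ^ N : Om)⁻¹ = 3⁻¹ * (3 ^ (N - 1))⁻¹ := by
    obtain ⟨N', rfl⟩ : ∃ N', N = N' + 1 := ⟨N - 1, by omega⟩
    rw [Nat.add_sub_cancel, pow_succ, mul_inv, mul_comm]
  have e4 : (∑ a ∈ As N, (zet (3 ^ (N - 1)) ^ (c * NI m * a : ℤ) +
      (-1) ^ e * zet (3 ^ (N - 1)) ^ (-(c * NI m * a) : ℤ)) * UU f N k m R χ a) =
      ∑ b ∈ R, ∑ a ∈ As N, zc N e (NI m) c a * Tb f N k m b (χ b) a := by
    rw [Finset.sum_comm]
    refine Finset.sum_congr rfl fun a _ => ?_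
    rw [← Finset.mul_sum]
    rfl
  have e5 : xs f k e m R (tw e χ) ((c : ℚ) / 3 ^ (N - 2)) = w4 ^ k / 3 * ∑ b ∈ R, tw e χ b * rO ⊤ b *
      (etE f k m b ((c : ℚ) / 3 ^ (N - 2)) + (-1) ^ e * etE f k m b (-((c : ℚ) / 3 ^ (N - 2)))) := by
    unfold xs xw
    have e6 : ∀ b ∈ R, tw e χ b * rO ⊤ b *
        (etE f k m b ((c : ℚ) / 3 ^ (N - 2)) + (-1) ^ e * etE f k m b (-((c : ℚ) / 3 ^ (N - 2)))) =
        tw e χ b * rO ⊤ b * etE f k m b ((c : ℚ) / 3 ^ (N - 2)) +
          (-1) ^ e * (tw e χ b * rO ⊤ b * etE f k m b (-((c : ℚ) / 3 ^ (N - 2)))) := by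
      intro b _
      ring
    rw [Finset.sum_congr rfl e6, Finset.sum_add_distrib, ← Finset.mul_sum]
    ring
  rw [e5, Finset.sum_congr rfl key, ← Finset.mul_sum, e2, e4]
  ring

end Pool.Agent.DM.DU.LS
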