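import Pool.Agent.Lib.DU.LS.Spec
import Pool.Agent.Lib.DU.CV.Phi

/-!
# Theorem DU, part LS, module Gb: the terms gB: homogeneity, class function modulo 3 ^ N (author helper28, after DM/GC, DR/LS)
-/

set_option autoImplicit false

open scoped Pointwise

noncomputable section

namespace Pool.Agent.DM.DU.LS

open Pool.Agent.MuZ Pool.Agent.FW Pool.Agent.DN Pool.Agent.DM Pool.Agent.DM.DU
open Pool.Agent.DI (io ofC io_inj exists_io io_ofC ofC_io VP MP UP TP ex)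
open Pool.Agent.DT (kap cbr)
open Pool.Agent.DM.G (Pm CN)
open Pool.Agent.DM.GL (GE vP pl pH IsR Un)
open Pool.Agent.DM.DU.GL (II Cls Orb Hn Hm Hs PtN dv SS)

variable {n t : ℕ}

private theorem Gb_int [SqN n t] (b : Ideal (OO n t)) (c : OO n t) : toC c ∈ Lam b :=
  lam_anti le_top (lam_top.2 ⟨c, rfl⟩)

private theorem Gb_not [SqN n t] {f N : ℕ} {a : Ideal (OO n t)} (hf : 2 ≤ f) (ha : a ≠ ⊥)
    (haf : PrI a (3 * f)) {v : OO n t} (hv : Cop v (3 * f)) : toC v / (f * 3 ^ N : ℕ) ∉ Lam a := by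
  intro h
  have hM : 0 < f * 3 ^ N := by positivity
  have h1 : PrI a (f * 3 ^ N) := CV_pri_mulN (CV_pri_dvd haf (Dvd.intro_left _ rfl))
    (CV_pri_pow (CV_pri_dvd haf (Dvd.intro _ rfl)) N)
  rw [aL6.1 n t a _ ha hM h1 v] at h
  have h2 : (f : OO n t) ∣ v - 0 := by
    rw [sub_zero]
    exact CV_cast_dvd (Dvd.intro _ rfl) h
  have h3 := Nm_congr h2
  rw [Nm_zero, sub_zero] at h3
  have h4 : Cop v f := cop_dvd hv (Dvd.intro_left _ rfl)
  unfold Cop at h4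
  have h5 := Int.isUnit_iff.1 (h4.isUnit_of_dvd' h3 dvd_rfl)
  omega

private theorem Gb_rO [Ram3 n t] (hD2 : S_D2) {P : Ideal ZZ} (hP : Ab3 P) {f : ℕ}
    {m b : Ideal (OO n t)} (hf : FM f m) (hb : FB f b) : UP P (rO (⊤ : Ideal (OO n t)) b) := by
  obtain ⟨hb30, -⟩ := w_fb hf hb
  obtain ⟨ht30, -⟩ := w_fb hf (w_fb_top (n := n) (t := t) f)
  have h := (hD2 n t P hP ⊤ ht30).2.2.2.2.2.2 b hb.ne hb30.cop
  rwa [Ideal.mul_top] at h

private theorem Gb_zmul [SqN n t] (M : ℕ) (v u : OO n t) :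
    toC (v * u) / (M : ℂ) = toC v * (toC u / M) := by
  rw [toC_mul]
  ring

/-- The image of `gO` of `sp v * b`. -/
private theorem Gb_gC [SqN n t] {m b : Ideal (OO n t)} (hm : m ≠ ⊥) (hb : b ≠ ⊥) {v : OO n t}
    (hv : v ≠ 0) (z : ℂ) : gC m (sp v * b) z =
      toC v * (KC (m * b) (toC v * z) - NI m * KC b (toC v * z)) / fr (sp v * b) := by
  have h1 := (((DN.aB7 n t b hb).1 v hv).1 z).2.2
  have h2 := (((DN.aB7 n t (m * b) (mul_ne_zero hm hb)).1 v hv).1 z).2.2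
  unfold gC
  rw [mul_left_comm m (sp v) b, h1, h2]
  ring

private theorem Gb_fr [SqN n t] (hR1 : S_R1) {b : Ideal (OO n t)} (hb : G30 b) : fr b ≠ 0 := by
  intro h0
  have h := ((hR1 n t).1 b hb).2.2.2 b hb
  rw [h0, div_zero] at h
  exact h.2 (io_inj (by rw [h.1, map_zero]))

private theorem Gb_hom [SqN n t] (hR1 : S_R1) {f N : ℕ}
    {m b : Ideal (OO n t)} (hf : FM f m) (hb : FB f b) {v u : OO n t}
    (hv : Cop v (3 * f)) (hu : Cop u (3 * f)) :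
    gB f N m (sp v * b) u = toO v * gB f N m b (v * u) := by
  obtain ⟨h20, hm30, -⟩ := w_fm hf
  have hf0 : 0 < f := by omega
  have hM : 0 < f * 3 ^ N := by positivity
  have h3f : 2 ≤ 3 * f := by omega
  have hv0 : v ≠ 0 := CV_ne_of_cop h3f hv
  have hvb : FB f (sp v * b) := w_fb_mul (w_fb_sp hf0 hv) hb
  obtain ⟨hb30, -, -, -, -, hmb⟩ := w_fb hf hb
  obtain ⟨hvb30, -, -, -, -, hmvb⟩ := w_fb hf hvb
  have ht30 := (w_fb hf (w_fb_top (n := n) (t := t) f)).1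
  have z1 := Gb_not (N := N) (by omega) (mul_ne_zero hf.ne hvb.ne) hmvb hu
  have w1 := Gb_not (N := N) (by omega) (mul_ne_zero hf.ne hb.ne) hmb (cop_mul hv hu)
  obtain ⟨r1, r2⟩ := hR1 n t
  have hr := (r1 ⊤ ht30).2.2.2
  unfold gB
  apply io_inj
  rw [map_mul, map_mul, map_mul, (hr _ hvb30).1, (hr _ hb30).1, io_toO,
    (r2 m (sp v * b) hf.ne hvb30 hm30 _ (tor_div hM u)).1 z1,
    (r2 m b hf.ne hb30 hm30 _ (tor_div hM (v * u))).1 w1, Gb_gC hf.ne hb.ne hv0, Gb_zmul]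
  unfold gC
  have e1 := Gb_fr hR1 hb30
  have e2 := Gb_fr hR1 hvb30
  have e3 := Gb_fr hR1 ht30
  field_simp

theorem tGb : S_Gb := by
  intro hB7 hR1 hD2 hD9 n t _ P hP f N m b hf hN hb
  have hpr : P.IsPrime := hP.1.1
  obtain ⟨h20, hm30, -⟩ := w_fm hf
  have hf0 : 0 < f := by omega
  have hM : 0 < f * 3 ^ N := by positivity
  have hMC : (((f * 3 ^ N : ℕ)) : ℂ) ≠ 0 := by exact_mod_cast hM.ne'
  have p1 : ∀ b : Ideal (OO n t), FB f b → ∀ v : OO n t, (f : OO n t) ∣ v - 1 →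
      VP P (gO m b (toC v / (f * 3 ^ N : ℕ))) ∧ VP P (gB f N m b v) := by
    intro b hb v hv
    have z2 := gO_vp hD9 hP hf hb (e' := 1) (N := N) (by norm_num) one_pos hv
    rw [one_mul] at z2
    exact ⟨z2, (Gb_rO hD2 hP hf hb).1.mul z2⟩
  have p2 : ∀ b : Ideal (OO n t), FB f b → ∀ v u : OO n t, ((f * 3 ^ N : ℕ) : OO n t) ∣ v - u →
      gO m b (toC v / (f * 3 ^ N : ℕ)) = gO m b (toC u / (f * 3 ^ N : ℕ)) ∧
      gB f N m b v = gB f N m b u := by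
    intro b hb v u h
    obtain ⟨c, hc⟩ := h
    have e1 : toC v / (f * 3 ^ N : ℕ) = toC u / (f * 3 ^ N : ℕ) + toC c := by
      have h1 := congrArg toC hc
      rw [toC_sub, toC_mul, toC_nat] at h1
      field_simp
      linear_combination h1
    have e2 : gO m b (toC v / (f * 3 ^ N : ℕ)) = gO m b (toC u / (f * 3 ^ N : ℕ)) := by
      rw [e1, gO_per hf.ne hb.ne (Gb_int b c)]
    refine ⟨e2, ?_⟩
    unfold gB
    rw [e2]
  refine ⟨p1 b hb, fun v hv => Gb_not (by omega) (mul_ne_zero hf.ne hb.ne) (w_fb hf hb).2.2.2.2.2 hv,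
    fun v u h => p2 b hb v u h, fun v u hv hu => Gb_hom hR1 hf hb hv hu, ?_, ?_⟩
  · intro v u hv hv3
    have h4 : (4 : OO n t) ∣ v - 1 := by
      have h7 := CV_cast_dvd (dvd_trans ⟨5, by norm_num⟩ hf.dvd : 4 ∣ f) hv
      rwa [w_cast4] at h7
    rw [Gb_zmul, gO_hom hB7 hf.ne hb.ne (w_fb hf hb).2.2.1 (CV_ne_of_cop (by norm_num) hv3) h4]
  rintro b' hb' ⟨α, α', -, -, hcα, hcα', hd, he⟩
  obtain ⟨β, hcβ, hβ⟩ := cop_inv hcα
  have d1 : ((f * 3 ^ N : ℕ) : OO n t) ∣ α * β - 1 := hβ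
  have d2 : ((f * 3 ^ N : ℕ) : OO n t) ∣ α' * β - 1 := by
    have e : α' * β - 1 = (α * β - 1) - (α - α') * β := by ring
    rw [e]
    exact dvd_sub hβ (hd.mul_right _)
  have h3f : 3 * f ∣ f * 3 ^ N := by
    obtain ⟨j, rfl⟩ : ∃ j, N = j + 1 := ⟨N - 1, by omega⟩
    exact ⟨3 ^ j, by rw [pow_succ]; ring⟩
  have c1 : Cop (α * β) (3 * f) := cop_dvd (CV_cop_of_dvd d1) h3f
  have c2 : Cop (α' * β) (3 * f) := cop_dvd (CV_cop_of_dvd d2) h3f
  have c0 : Cop (1 : OO n t) (3 * f) := cop_one _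
  have eI : sp (α * β) * b = sp (α' * β) * b' := by
    rw [← CV_sp_mul, ← CV_sp_mul, mul_comm (sp α), mul_comm (sp α'), mul_assoc, mul_assoc, he]
  have g1 := Gb_hom (N := N) hR1 hf hb c1 c0
  have g2 := Gb_hom (N := N) hR1 hf hb' c2 c0
  have g3 := (p2 b hb (α * β * 1) 1 (by rw [mul_one]; exact d1)).2
  have g4 := (p2 b' hb' (α' * β * 1) 1 (by rw [mul_one]; exact d2)).2
  rw [eI, g2, g3, g4] at g1
  have d3 : ((3 ^ N : ℕ) : OO n t) ∣ α' * β - α * β := by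
    have e : α' * β - α * β = (α' * β - 1) - (α * β - 1) := by ring
    rw [e]
    exact CV_cast_dvd (N := f * 3 ^ N) (Dvd.intro_left f rfl) (dvd_sub d2 d1)
  have key : toO (α * β) * (gB f N m b 1 - gB f N m b' 1) =
      toO (α' * β - α * β) * gB f N m b' 1 := by
    rw [toO_sub]
    linear_combination -g1
  have hge : GE P N (toO (α * β) * (gB f N m b 1 - gB f N m b' 1)) := by
    rw [key]
    refine DL.GE.mul_right (pl hP) ?_ (p1 b' hb' 1 (by rw [sub_self]; exact dvd_zero _)).2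
    obtain ⟨c, hc⟩ := d3
    rw [hc, toO_mul, toO_nat]
    refine DL.GE.mul_right (pl hP) ?_ (toO_VP c)
    right
    rw [Nat.cast_pow, DL.vl_two_pow (pl hP)]
  have hup : UP P (toO (α * β)) := by
    refine DI.UP.congr DI.UP.one ?_
    obtain ⟨c, hc⟩ := CV_cast_dvd h3f d1
    have e : toO (α * β) - 1 = 3 * ((f : Om) * toO c) := by
      have h1 := congrArg toO hc
      rw [toO_sub, toO_one, toO_mul ((3 * f : ℕ) : OO n t) c, toO_nat] at h1
      rw [h1]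
      push_cast
      ring
    rw [e]
    exact DI.MP.mul_right hP.2 ((DI.VP.nat f).mul (toO_VP c))
  have hfin := DL.GE.mul_left (pl hP) hup.inv.1 hge
  rwa [inv_mul_cancel_left₀ hup.ne_zero] at hfin

end Pool.Agent.DM.DU.LS
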