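import Pool.Agent.Lib.DU.LS.Spec

/-!
# Theorem DU, part LS, module LSm: `S_LS`, the end of the local step (author helper28, after DR/LS/LSm of helper20)
-/

set_option autoImplicit false

open scoped Pointwise

noncomputable section

namespace Pool.Agent.DM.DU.LS

open Pool.Agent.MuZ Pool.Agent.FW Pool.Agent.DN Pool.Agent.DM Pool.Agent.DM.DU
open Pool.Agent.DI (io ofC io_inj exists_io io_ofC ofC_io VP MP UP TP ex)
open Pool.Agent.DT (kap cbr)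
open Pool.Agent.DM.G (Pm CN)
open Pool.Agent.DM.GL (GE vP pl pH IsR Un)
open Pool.Agent.DM.DU.GL (II Cls Orb Hn Hm Hs PtN dv SS)

variable {n t : ℕ}

private theorem LSm_zm {q l : ℕ} (hq : 0 < q) (hl : 0 < l) : zet (q * l) ^ l = zet q := by
  apply io_inj
  have hq' : (q : ℂ) ≠ 0 := by exact_mod_cast hq.ne'
  have hl' : (l : ℂ) ≠ 0 := by exact_mod_cast hl.ne'
  rw [map_pow, CV_io_zet (Nat.mul_pos hq hl), CV_io_zet hq]
  unfold ex
  rw [← Complex.exp_nat_mul]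
  congr 1
  push_cast
  field_simp

private theorem LSm_mp {P : Ideal ZZ} (hP : Ab3 P) : ∀ (i : ℕ) (x : Om), x ^ 3 ^ i = 1 → MP P (x - 1)
  | 0, x, h => by
    have := hP.1.1
    rw [pow_zero, pow_one] at h
    rw [h, sub_self]
    exact DI.MP.zero
  | i + 1, x, h => by
    have := hP.1.1
    have h1 : (x ^ 3) ^ 3 ^ i = 1 := by
      rw [← pow_mul, ← pow_succ']
      exact h
    have h2 := LSm_mp hP i _ h1
    have hx : VP P x := (CV_up_of_pow hP.1.1 (by positivity) h).1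
    have h3 : MP P ((x - 1) ^ 3) := by
      have e : (x - 1) ^ 3 = (x ^ 3 - 1) - 3 * (x * (x - 1)) := by ring
      rw [e]
      exact h2.sub (hP.2.mul_right (hx.mul (hx.sub DI.VP.one)))
    exact h3.of_pow

private theorem LSm_sq {η : Om} {j : ℕ} (h : η ^ 3 ^ j = 1) (h2 : η ^ 2 = 1) : η = 1 := by
  obtain ⟨l, hl⟩ : Odd (3 ^ j) := Odd.pow (by decide)
  rw [hl, pow_succ, pow_mul, h2, one_pow, one_mul] at h
  exact h

/-- The formula for `xs`. -/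
private theorem LSm_fou [Ram3 n t] (hFou : C_Fou) {P : Ideal ZZ} (hP : Ab3 P) {f N k e : ℕ}
    {m : Ideal (OO n t)} {R : Finset (Ideal (OO n t))} (χ : Ideal (OO n t) → Om) (hm : FM f m)
    (hR : FR f R) {j : ℕ} (hN : 2 ≤ N) (hj : j + 2 ≤ N) (c : ℤ) :
    xs f k e m R (tw e χ) (c / 3 ^ j) = w4 ^ k * ((3 ^ N)⁻¹ *
      ∑ a ∈ As N, ((zet (3 ^ (j + 1)) ^ (c * NI m : ℤ)) ^ a +
        (-1) ^ e * ((zet (3 ^ (j + 1)) ^ (c * NI m : ℤ)) ^ a)⁻¹) * UU f N k m R χ a) := by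
  have h1 := hFou n t P hP f N k e m R χ hm hR hN (c * 3 ^ (N - 2 - j))
  have e1 : (((c * 3 ^ (N - 2 - j) : ℤ) : ℚ) / 3 ^ (N - 2)) = c / 3 ^ j := by
    have e : N - 2 = (N - 2 - j) + j := by omega
    have e' : (3 : ℚ) ^ (N - 2) = 3 ^ (N - 2 - j) * 3 ^ j := by
      rw [← pow_add, ← e]
    rw [e']
    push_cast
    field_simp
  rw [e1] at h1
  rw [h1]
  congr 2
  refine Finset.sum_congr rfl fun a _ => ?_
  have hz : zet (3 ^ (N - 1)) ^ (c * 3 ^ (N - 2 - j) * NI m * a : ℤ) =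
      (zet (3 ^ (j + 1)) ^ (c * NI m : ℤ)) ^ a := by
    have e : 3 ^ (N - 1) = 3 ^ (j + 1) * 3 ^ (N - 2 - j) := by
      rw [← pow_add]
      congr 1
      omega
    rw [← LSm_zm (q := 3 ^ (j + 1)) (l := 3 ^ (N - 2 - j)) (by positivity) (by positivity), ← e,
      ← zpow_natCast (zet (3 ^ (N - 1))) (3 ^ (N - 2 - j)), ← zpow_mul, ← zpow_natCast, ← zpow_mul]
    congr 1
    push_cast
    ring
  rw [zpow_neg, hz]

/-- The claim. -/
private theorem LSm_cl [Ram3 n t] (hO4 : S_O4) (hPnt : GL.C_Pnt) (hGen : GL.C_Gen) (hU1 : C_U1)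
    (hFou : C_Fou) (hCa : C_Ca) {f k e : ℕ} {m : Ideal (OO n t)} {R : Finset (Ideal (OO n t))}
    {χ : Ideal (OO n t) → Om} {P : Ideal ZZ} (hm : FM f m) (hR : FR f R) (hRC : IsRC f R)
    (hχ : IsChi (3 * f) χ) (hP : Ab3 P) (hk : k = 1 ∨ k = 2) (he : e = 0 ∨ e = 1) (hke : k = 1 → e = 1)
    (hTy : Ty P f χ (k - 1))
    (hyp : ∀ N0 : ℕ, ∃ N : ℕ, N0 ≤ N ∧ ∃ T : Finset (OO n t), IsRep f N T ∧
      ∃ D : Finset (Ideal (OO n t)), IsDS f N D ∧ ∀ d : Gal(Om/ℚ), IsD n t f P d →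
        MP P (∑ c ∈ D, χ c * ((kap (uN f N m T c) d).val : Om))) (c : ℤ) (j : ℕ) :
    MP P (xs f k e m R (tw e χ) (c / 3 ^ j)) := by
  have hPp : P.IsPrime := hP.1.1
  obtain ⟨θ, hθ⟩ : ∃ θ, θ = zet (3 ^ (j + 1)) ^ (c * NI m : ℤ) := ⟨_, rfl⟩
  have hj1 : (0 : ℕ) < 3 ^ (j + 1) := by positivity
  have hθ1 : θ ^ 3 ^ (j + 1) = 1 := by
    rw [hθ, ← zpow_natCast, ← zpow_mul, mul_comm, zpow_mul, zpow_natCast, CV_zet_pow hj1, one_zpow]
  by_cases h0 : k = 1 ∧ θ = 1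
  · obtain ⟨hk1, hθe⟩ := h0
    have h := LSm_fou (k := k) (e := e) hFou hP χ hm hR (N := j + 2) (j := j) (by omega) le_rfl c
    rw [← hθ, hθe, hke hk1] at h
    rw [hke hk1, h]
    have e2 : ∑ a ∈ As (j + 2), ((1 : Om) ^ a + (-1) ^ 1 * (1 ^ a)⁻¹) *
        UU f (j + 2) k m R χ a = 0 := by
      refine Finset.sum_eq_zero fun a _ => ?_
      rw [one_pow, inv_one]
      norm_num
    rw [e2, mul_zero, mul_zero]
    exact DI.MP.zero
  -- the level `N`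
  obtain ⟨N0, hN0⟩ : ∃ N0 : ℕ, ∀ N : ℕ, N0 ≤ N → k = 1 →
      θ ≠ 1 ∧ (2 * 3 ^ 6 : ℚ) / 3 ^ N ≤ vP P (θ ^ 2 - 1) := by
    by_cases hk1 : k = 1
    · have hθe : θ ≠ 1 := fun h => h0 ⟨hk1, h⟩
      have hs : θ ^ 2 - 1 ≠ 0 := by
        intro h
        exact hθe (LSm_sq hθ1 (sub_eq_zero.1 h))
      have hs1 : (θ ^ 2) ^ 3 ^ (j + 1) = 1 := by
        rw [← pow_mul, mul_comm, pow_mul, hθ1, one_pow]
      have hvpos : 0 < vP P (θ ^ 2 - 1) := (DL.vl_pos (pl hP) hs).2 (LSm_mp hP _ _ hs1)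
      obtain ⟨N1, hN1⟩ := exists_nat_gt ((2 * 3 ^ 6 : ℚ) / vP P (θ ^ 2 - 1))
      refine ⟨N1, fun N hN _ => ⟨hθe, ?_⟩⟩
      have h1 : (2 * 3 ^ 6 : ℚ) / vP P (θ ^ 2 - 1) < 3 ^ N := by
        refine hN1.trans_le ?_
        have h3 : N1 ≤ 3 ^ N := hN.trans (Nat.lt_pow_self (by norm_num)).le
        exact_mod_cast h3
      rw [div_lt_iff₀ hvpos] at h1
      rw [div_le_iff₀ (by positivity), mul_comm (vP P (θ ^ 2 - 1))]
      exact h1.le
    · exact ⟨0, fun N _ h => absurd h hk1⟩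
  obtain ⟨N, hN, T, hT, D, hD, hd⟩ := hyp (max 8 (max (j + 2) N0))
  have hN8 : 8 ≤ N := (le_max_left _ _).trans hN
  have hNj : j + 2 ≤ N := (le_max_left _ _).trans ((le_max_right _ _).trans hN)
  have hNN : N0 ≤ N := (le_max_right _ _).trans ((le_max_right _ _).trans hN)
  have hθ2 : θ ^ 3 ^ N = 1 := by
    have e : 3 ^ N = 3 ^ (j + 1) * 3 ^ (N - (j + 1)) := by
      rw [← pow_add]
      congr 1
      omega
    rw [e, pow_mul, hθ1, one_pow]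
  obtain ⟨z0, d, hPt⟩ := hPnt n t f N hm.toFok (by omega)
  obtain ⟨SH, hSH⟩ := GL.genE hGen hP hPt.toPt (fun h hh => GL.hn_un hO4 (f := f) (N := N) h hh)
    (GL.hn_one f N)
  have hU := hU1 n t P hP f N k m R χ T D z0 d SH hm hR hRC hχ (by omega) hTy (by omega) hT hD hPt hSH hd
  have h := LSm_fou (k := k) (e := e) hFou hP χ hm hR (N := N) (j := j) (by omega) hNj c
  rw [← hθ] at h
  rw [h]
  exact hCa n t P hP f N k e m R χ z0 d SH θ hm hR hχ hk he hke hN8 hPt hSH hθ2 (hN0 N hNN) hU.1 hU.2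

theorem tLSm : S_LSm := by
  intro hO4 hPnt hGen hU1 hFou hCa n t _ f k e m R χ P hm hR hRC hχ hP hk he hke hTy hyp c j
  have h1 := LSm_cl hO4 hPnt hGen hU1 hFou hCa hm hR hRC hχ hP hk he hke hTy hyp c j
  have h2 := LSm_cl hO4 hPnt hGen hU1 hFou hCa hm hR hRC hχ hP hk he hke hTy hyp 0 0
  rw [Int.cast_zero, zero_div] at h2
  have := hP.1.1
  exact h1.sub h2

end Pool.Agent.DM.DU.LS
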