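import Pool.Agent.Lib.DU.LS.Spec

set_option autoImplicit false

open scoped Pointwise

noncomputable section

namespace Pool.Agent.DM.DU.LS

open Pool.Agent.MuZ Pool.Agent.FW Pool.Agent.DN Pool.Agent.DM Pool.Agent.DM.DU
open Pool.Agent.DI (io ofC io_inj exists_io io_ofC ofC_io VP MP UP TP ex)
open Pool.Agent.DT (kap cbr)
open Pool.Agent.DM.G (Pm CN)
open Pool.Agent.DM.GL (GE vP pl pH IsR Un)
open Pool.Agent.DM.DU.GL (II Cls Orb Hn Hm Hs PtN dv SS)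

variable {n t : ℕ}

private theorem rep (N : ℕ) (s : ℤ) : ∃ a : ℕ, a < 3 ^ N ∧ (3 : ℤ) ^ N ∣ s - a := by
  have hq : (0 : ℤ) < 3 ^ N := by positivity
  have h0 := Int.emod_nonneg s hq.ne'
  have h1 := Int.emod_lt_of_pos s hq
  have h2 : (3 : ℤ) ^ N ∣ s - s % 3 ^ N := Int.dvd_self_sub_emod
  refine ⟨(s % 3 ^ N).toNat, ?_, ?_⟩
  · zify
    rw [Int.toNat_of_nonneg h0]
    exact h1
  · rw [Int.toNat_of_nonneg h0]
    exact h2

private theorem e3 {N : ℕ} (hN : 1 ≤ N) {x : ℤ} (h : (3 : ℤ) ^ N ∣ x) : (3 : ℤ) ∣ x := by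
  have h1 : (3 : ℤ) ^ 1 ∣ 3 ^ N := pow_dvd_pow 3 hN
  rw [pow_one] at h1
  exact h1.trans h

private theorem mem_As {N a : ℕ} : a ∈ As N ↔ a < 3 ^ N ∧ a % 3 = 1 := by
  unfold As
  rw [Finset.mem_filter, Finset.mem_range]

private theorem root {N : ℕ} (hN : 1 ≤ N) {a : ℤ} (ha : (3 : ℤ) ∣ a - 1) :
    ∃ w : ℤ, (3 : ℤ) ^ N ∣ w ^ 2 - a := by
  obtain ⟨M, rfl⟩ : ∃ M, N = M + 1 := ⟨N - 1, by omega⟩
  have h1 : ((3 : ℕ) : ℤ) ^ (M + 1) ∣ a ^ 3 ^ M - 1 ^ 3 ^ M :=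
    dvd_sub_pow_of_dvd_sub (by exact_mod_cast ha) M
  rw [one_pow] at h1
  obtain ⟨j, hj⟩ : Odd (3 ^ M) := Odd.pow (by decide)
  refine ⟨a ^ (j + 1), ?_⟩
  have e : (a ^ (j + 1)) ^ 2 - a = (a ^ 3 ^ M - 1) * a := by
    rw [hj]
    ring
  rw [e]
  exact dvd_mul_of_dvd_left (by exact_mod_cast h1) _

theorem tNrm : S_Nrm := by
  intro O4 n t _ N hN
  have hcop : ∀ v : OO n t, Cop v 3 ↔ ¬ (3 : ℤ) ∣ Nm v := (O4 n t).2.2.2.2.2.2.2.2.2.1
  have hnm : ∀ v : OO n t, Cop v 3 → (3 : ℤ) ∣ Nm v - 1 := (O4 n t).2.2.2.2.2.2.2.2.2.2.1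
  have hbase : ∀ s : ℤ, (3 : ℤ) ∣ s - 1 → ∃ a ∈ As N, (3 : ℤ) ^ N ∣ s - a := by
    intro s hs
    obtain ⟨a, ha, h1⟩ := rep N s
    refine ⟨a, mem_As.2 ⟨ha, ?_⟩, h1⟩
    have := e3 hN h1
    omega
  refine ⟨?_, ?_, ?_, ?_, ?_⟩
  · intro s hs
    by_cases h : (3 : ℤ) ∣ s - 1
    · obtain ⟨a, ha, h1⟩ := hbase s h
      exact ⟨a, ha, Or.inl h1⟩
    · obtain ⟨a, ha, h1⟩ := hbase (-s) (by omega)
      refine ⟨a, ha, Or.inr ?_⟩
      have e : s + a = -(-s - a) := by ring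
      rw [e]
      exact (dvd_neg).2 h1
  · intro a ha a' ha' h
    rw [mem_As] at ha ha'
    rcases h with h | h
    · have h1 := Int.eq_zero_of_abs_lt_dvd h (by
        have h2 : (a : ℤ) < 3 ^ N := by exact_mod_cast ha.1
        have h3 : (a' : ℤ) < 3 ^ N := by exact_mod_cast ha'.1
        rw [abs_lt]
        constructor <;> omega)
      omega
    · have := e3 hN h
      omega
  · intro a ha h
    rw [mem_As] at ha
    omega
  · intro f' a hf ha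
    rw [mem_As] at ha
    obtain ⟨w, hw⟩ := root hN (a := (a : ℤ)) (by omega)
    have hc : IsCoprime (f' : ℤ) ((3 ^ N : ℕ) : ℤ) := by
      rw [Nat.isCoprime_iff_coprime]
      exact Nat.Coprime.pow_right N hf.cop
    obtain ⟨x, y, hxy⟩ := hc
    push_cast at hxy
    set v0 : ℤ := x * f' * w + y * 3 ^ N with hv0
    have e1 : v0 - 1 = f' * (x * (w - 1)) := by
      rw [hv0]
      linear_combination hxy
    have e2 : v0 - w = 3 ^ N * (y * (1 - w)) := by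
      rw [hv0]
      linear_combination w * hxy
    have h1 : (3 : ℤ) ^ N ∣ v0 ^ 2 - a := by
      have e : v0 ^ 2 - a = (v0 - w) * (v0 + w) + (w ^ 2 - a) := by ring
      rw [e]
      exact dvd_add (dvd_mul_of_dvd_left ⟨_, e2⟩ _) hw
    refine ⟨(v0 : OO n t), ?_, ?_, ?_⟩
    · rw [nat_dvd_iff, QuadraticAlgebra.re_sub, QuadraticAlgebra.im_sub, re_int, im_int, re_one, im_one]
      exact ⟨⟨_, e1⟩, by simp⟩
    · rw [hcop, Nm_int]
      intro h2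
      have h3 := e3 hN h1
      omega
    · rw [Nm_int]
      exact h1
  · intro h hh
    exact hbase _ (hnm h hh)

end Pool.Agent.DM.DU.LS
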