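import Pool.Agent.Lib.DU.LS.Spec

/-!
# Theorem DU, part LS, module RS: reindexing the classes modulo `f 3^N` with norm `± 1`
(helper95, after `DM/GC/RS.lean` of helper62)
-/

set_option autoImplicit false

open scoped Pointwise

noncomputable section

namespace Pool.Agent.DM.DU.LS

open Pool.Agent.MuZ Pool.Agent.FW Pool.Agent.DN Pool.Agent.DM Pool.Agent.DM.DU
open Pool.Agent.DI (io ofC io_inj exists_io io_ofC ofC_io VP MP UP TP ex)
open Pool.Agent.DT (kap cbr)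
open Pool.Agent.DM.G (Pm CN)
open Pool.Agent.DM.GL (GE vP pl pH IsR Un)
open Pool.Agent.DM.DU.GL (II Cls Orb Hn Hm Hs PtN dv SS)

variable {n t : ℕ}

private theorem RS_sum {P : Ideal ZZ} (hP : Ab3 P) (q : ℚ) {ι : Type} (s : Finset ι) (g : ι → Om) :
    (QuotientAddGroup.mk (∑ i ∈ s, g i) : Om ⧸ GEs P hP q) =
      ∑ i ∈ s, (QuotientAddGroup.mk (g i) : Om ⧸ GEs P hP q) :=
  map_sum (QuotientAddGroup.mk' (GEs P hP q)) g s

private theorem RS_three {N : ℕ} (hN : 1 ≤ N) : (3 : ℤ) ∣ 3 ^ N := dvd_pow_self 3 (by omega)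

private theorem RS_ndvd {N : ℕ} (hN : 1 ≤ N) {x y : ℤ} (h : Pm N (x * y) 1) : ¬ (3 : ℤ) ∣ y := by
  intro h2
  have h4 : (3 : ℤ) ∣ x * y := h2.mul_left x
  rcases h with h | h
  · have h5 := (Int.dvd_iff_dvd_of_dvd_sub ((RS_three hN).trans h)).1 h4
    omega
  · have h5 := (Int.dvd_iff_dvd_of_dvd_add ((RS_three hN).trans h)).1 h4
    omega

theorem tRS : S_RS := by
  classical
  intro hC hG n t _ P hP f N k m R χ T D hfm hR hRC hχ hTy hN hT hD
  have hf := hfm.toFok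
  have hfpos : 0 < f := hf.pos
  have hMpos : 0 < f * 3 ^ N := by positivity
  have hprime := hP.1.1
  obtain ⟨hVP, hhf, hty⟩ := hC n t P hP f χ hf hχ
  replace hty := hty (k - 1) hTy
  have h3f : 3 * f ∣ f * 3 ^ N := by
    obtain ⟨N', rfl⟩ : ∃ N', N = N' + 1 := ⟨N - 1, by omega⟩
    exact ⟨3 ^ N', by ring⟩
  set G : Ideal (OO n t) → Om := fun b' => χ b' * gB f N m b' 1 with hGdef
  set F : Ideal (OO n t) → Om ⧸ GEs P hP (N : ℚ) := fun b' => QuotientAddGroup.mk (G b') with hFdef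
  have hF : ∀ b b' : Ideal (OO n t), CN f N b → CN f N b' → Ray (f * 3 ^ N) b b' → F b = F b' := by
    intro b b' hb hb' hr
    have hr3 : Ray (3 * f) b b' := (aO7 n t (f * 3 ^ N) hMpos).2.2.2.2.2.2.1 (3 * f) b b' h3f hr
    have h1 : χ b = χ b' := hχ.ray b b' hb.1 hb'.1 hb.2.1 hb'.2.1 hr3
    have h2 := (hG n t P hP f N m b hfm hN ⟨hb.1, hb.2.1⟩).2.2.2.2.2 b' ⟨hb'.1, hb'.2.1⟩ hr
    rw [hFdef]
    refine (GEs_eq hP).2 ?_
    change GE P N (χ b * gB f N m b 1 - χ b' * gB f N m b' 1)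
    rw [h1, ← mul_sub]
    exact DL.GE.mul_left (pl hP) (hVP b').1 h2
  -- the first system
  have hβ1 : ∀ p : ℕ × ℕ, (f : OO n t) ∣ bp f p - 1 := fun p => ga_sub_one f p.1 p.2
  have h1 : ∀ b ∈ R, ∀ p : ℕ × ℕ, Pm N (NI b * Nm (bp (n := n) (t := t) f p)) 1 →
      χ (sp (bp f p) * b) * gB f N m (sp (bp f p) * b) 1 =
        χ b * ((zs (bp (n := n) (t := t) f p) : Om) ^ (k - 1) *
          (toO (bp (n := n) (t := t) f p) * gB f N m b (bp f p))) := by
    intro b hb p hpm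
    have hc3 : Cop (bp (n := n) (t := t) f p) 3 :=
      ((Int.prime_three.coprime_iff_not_dvd).2 (RS_ndvd hN hpm)).symm
    have hc : Cop (bp (n := n) (t := t) f p) (3 * f) :=
      CV_cop_mul.2 ⟨hc3, CV_cop_of_dvd (hβ1 p)⟩
    have h3 := (hG n t P hP f N m b hfm hN (hR b hb)).2.2.2.1 (bp f p) 1 hc (cop_one _)
    rw [mul_one] at h3
    rw [hχ.mul, hty _ (hβ1 p) hc3, h3]
    ring
  set I : Finset (Ideal (OO n t) × ℕ × ℕ) :=
    (R ×ˢ Bx N).filter (fun p => Pm N (NI p.1 * Nm (ga (n := n) (t := t) f p.2.1 p.2.2)) 1) with hI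
  have hmem : ∀ p, p ∈ I ↔ p.1 ∈ R ∧ p.2.1 < 3 ^ N ∧ p.2.2 < 3 ^ N ∧
      Pm N (NI p.1 * Nm (ga (n := n) (t := t) f p.2.1 p.2.2)) 1 := by
    intro p
    rw [hI, Bx, Finset.mem_filter, Finset.mem_product, Finset.mem_product, Finset.mem_range,
      Finset.mem_range]
    tauto
  obtain ⟨hinj1, hB1⟩ := DM.G.aRB n t f N R hf hN hRC (fun b hb => (hR b hb).prm) I hmem
  replace hinj1 : Set.InjOn (fun p : Ideal (OO n t) × ℕ × ℕ => sp (ga f p.2.1 p.2.2) * p.1) (I : Set _) := hinj1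
  have e1 : SI f N R 1 (fun b v => χ b * ((zs v : Om) ^ (k - 1) * (toO v * gB f N m b v))) =
      ∑ b ∈ I.image (fun p : Ideal (OO n t) × ℕ × ℕ => sp (ga f p.2.1 p.2.2) * p.1), G b := by
    rw [Finset.sum_image (fun x hx y hy h => hinj1 hx hy h), hI, Finset.sum_filter,
      Finset.sum_product, SI]
    refine Finset.sum_congr rfl fun b hb => ?_
    refine Finset.sum_congr rfl fun p _ => ?_
    change _ = (if Pm N (NI b * Nm (bp (n := n) (t := t) f p)) 1 then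
      χ (sp (bp f p) * b) * gB f N m (sp (bp f p) * b) 1 else 0)
    by_cases hA : Pm N (NI b * Nm (bp (n := n) (t := t) f p)) 1
    · rw [if_pos hA, if_pos hA]
      exact (h1 b hb p hA).symm
    · rw [if_neg hA, if_neg hA]
  -- the second system
  obtain ⟨hinj2, hB2⟩ := DM.G.aRD n t f N T D hf hN hT hD.mem (fun b hb => hD.ex b hb.1 hb.2.1) hD.uni
  have h2 : ∀ c ∈ D, ∀ h ∈ T, G (sp h * c) =
      χ c * (rO (⊤ : Ideal (OO n t)) c * (toO h * gO m c (toC h / (f * 3 ^ N : ℕ)))) := by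
    intro c hc h hh
    have hfb : FB f c := ⟨(hD.mem c hc).1, (hD.mem c hc).2.1⟩
    obtain ⟨hHf, hnh⟩ := hT.mem h hh
    have h3 := (hG n t P hP f N m c hfm hN hfb).2.2.2.1 h 1 hHf.1 (cop_one _)
    rw [mul_one] at h3
    change χ (sp h * c) * gB f N m (sp h * c) 1 = _
    rw [hχ.mul, hhf h hHf, h3, gB]
    ring
  have e2 : SS f N m χ T D =
      ∑ b ∈ (D ×ˢ T).image (fun p : Ideal (OO n t) × OO n t => sp p.2 * p.1), G b := by
    rw [Finset.sum_image (fun x hx y hy h => hinj2 hx hy h), Finset.sum_product]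
    refine Finset.sum_congr rfl fun c hc => ?_
    rw [Finset.mul_sum, Finset.mul_sum]
    exact Finset.sum_congr rfl fun h hh => (h2 c hc h hh).symm
  refine (GEs_eq hP).1 ?_
  rw [e1, e2, RS_sum, RS_sum]
  refine DS.G.aRI n t (f * 3 ^ N) (CN f N) _ _ _ F hMpos (hB2 _ ?_) (hB1 _ ?_) hF
  · rw [Finset.coe_image]
  · rw [Finset.coe_image]
    rfl

end Pool.Agent.DM.DU.LS
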