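import Pool.Agent.Lib.DU.LS.Spec

/-!
# Theorem DU, part LS, module SU: the comparison of `β` with `zs β`
(helper95, after `DR/LS/SU.lean` and `DM/GC/SU.lean` of helper9)
-/

set_option autoImplicit false

open scoped Pointwise

noncomputable section

namespace Pool.Agent.DM.DU.LS

open Pool.Agent.MuZ Pool.Agent.FW Pool.Agent.DN Pool.Agent.DM Pool.Agent.DM.DU
open Pool.Agent.DI (io ofC io_inj exists_io io_ofC ofC_io VP MP UP TP ex)
open Pool.Agent.DT (kap cbr)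
open Pool.Agent.DM.G (Pm CN)
open Pool.Agent.DM.GL (GE vP pl pH IsR Un)
open Pool.Agent.DM.DU.GL (II Cls Orb Hn Hm Hs PtN dv SS)

variable {n t : ℕ}

private theorem SU_pm {N : ℕ} {x y z a : ℤ} (h : Pm N (x * y) a) (hd : (3 : ℤ) ^ N ∣ y - z) :
    Pm N (x * z) a := by
  rcases h with h | h
  · left
    have e : x * z - a = (x * y - a) - x * (y - z) := by ring
    rw [e]
    exact dvd_sub h (Dvd.dvd.mul_left hd x)
  · right
    have e : x * z + a = (x * y + a) - x * (y - z) := by ring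
    rw [e]
    exact dvd_sub h (Dvd.dvd.mul_left hd x)

private theorem SU_cop {N : ℕ} (hN : 1 ≤ N) {x : ℤ} {v : OO n t} (h : Pm N (x * Nm v) 1) : Cop v 3 := by
  have h3 : (3 : ℤ) ∣ 3 ^ N := dvd_pow_self 3 (by omega)
  refine ((Int.prime_three.coprime_iff_not_dvd).2 fun h2 => ?_).symm
  have h4 : (3 : ℤ) ∣ x * Nm v := h2.mul_left x
  rcases h with h | h
  · have h5 := (Int.dvd_iff_dvd_of_dvd_sub (h3.trans h)).1 h4
    omega
  · have h5 := (Int.dvd_iff_dvd_of_dvd_add (h3.trans h)).1 h4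
    omega

private theorem SU_pow [SqN n t] {P : Ideal ZZ} (hP : Ab3 P) {M N : ℕ} {u : OO n t}
    (h : ((M * 3 ^ N : ℕ) : OO n t) ∣ u) : GE P N (toO u) := by
  have hPp : P.IsPrime := hP.1.1
  obtain ⟨w, rfl⟩ := h
  have e : toO (((M * 3 ^ N : ℕ) : OO n t) * w) = (3 : ℕ) ^ N * ((M : Om) * toO w) := by
    rw [toO_mul, toO_nat]
    push_cast
    ring
  rw [e]
  exact DL.GE.mul_right (pl hP) (Or.inr (DL.vl_two_pow (pl hP) N).ge) ((DI.VP.nat M).mul (toO_VP w))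

private theorem SU_27 [SqN n t] {P : Ideal ZZ} (hP : Ab3 P) {u : OO n t}
    (h : (27 : OO n t) ∣ u) : GE P 3 (toO u) := by
  have h1 : ((1 * 3 ^ 3 : ℕ) : OO n t) ∣ u := by
    have e : ((1 * 3 ^ 3 : ℕ) : OO n t) = 27 := by norm_num
    rwa [e]
  have h2 := SU_pow hP h1
  exact_mod_cast h2

private theorem SU_three {x : OO n t} (h : (27 : OO n t) ∣ x) : (3 : OO n t) ∣ x :=
  dvd_trans ⟨9, by norm_num⟩ h

private theorem SU_coset (t0a : GL.C_T0a) (sub : GL.C_Sub) (chi : GL.C_Chi) (gb : C_Gb)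
    [Ram3 n t] {P : Ideal ZZ} (hP : Ab3 P) {f N k : ℕ} {m b : Ideal (OO n t)}
    {χ : Ideal (OO n t) → Om} {z0 d : ℂ} {SH2 : Finset Om} (hm : FM f m) (hb : FB f b)
    (hχ : IsChi (3 * f) χ) (hN : 4 ≤ N) (hp : PtN n t f N z0 d)
    (hO2 : Orb z0 d (Hs (n := n) (t := t) f N) SH2)
    {T : Finset (OO n t)} (hT : IsR N (Hs (f * NI m) N) T) {v : OO n t} (hv3 : Cop v 3)
    (hvf : (f : OO n t) ∣ v - 1) {q : ℚ} (hq1 : q ≤ 1 / 2 + dv n t P z0 d SH2) (hq2 : q ≤ 3) :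
    GE P q (∑ h ∈ T, χ b * ((zs (h * v) : Om) ^ (k - 1) *
      ((toO (h * v) - zs (h * v)) * gB f N m b (h * v)))) := by
  classical
  have hPp : P.IsPrime := hP.1.1
  have h3 := pl hP
  have hv3f : Cop v (3 * f) := (CV_cop_mul).2 ⟨hv3, CV_cop_of_dvd hvf⟩
  obtain ⟨g1, -, -, -, -⟩ := gb n t P hP f N m b hm (by omega) hb
  obtain ⟨-, -, -, hT0⟩ := t0a
  obtain ⟨-, -, -, hun, -, hzs, -⟩ := hT0 n t P hP
  have hχb : VP P (χ b) := ((chi n t P hP f χ hm.toFok hχ).1 b).1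
  have hA := sub n t P hP f N m hm (by omega) z0 d hp SH2 hO2 T hT b v hb hv3f
  have hv1 : GE P (1 / 2) (toO v - zs v) := (hzs v).2
  have hvu := hun v hv3
  have hv0 : toO v ≠ 0 := DI.UP.ne_zero hvu
  have hz : ∀ h ∈ T, zs (h * v) = zs v := by
    intro h hh
    refine w_zs_congr ?_
    have e : h * v - v = (h - 1) * v := by ring
    rw [e]
    exact Dvd.dvd.mul_right (SU_three (hT.mem h hh).2) _
  have hE : ∑ h ∈ T, χ b * ((zs (h * v) : Om) ^ (k - 1) *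
      ((toO (h * v) - zs (h * v)) * gB f N m b (h * v))) =
      χ b * ((zs v : Om) ^ (k - 1) * ((toO v)⁻¹ * ((toO v - zs v) * (∑ h ∈ T, toO (h * v) *
        (rO (⊤ : Ideal (OO n t)) b * gO m b (toC (h * v) / (f * 3 ^ N : ℕ)))) +
        ∑ h ∈ T, (zs v : Om) * (toO (h - 1) * (toO v * gB f N m b (h * v)))))) := by
    rw [← Finset.mul_sum]
    congr 1
    have e1 : ∑ h ∈ T, (zs (h * v) : Om) ^ (k - 1) * ((toO (h * v) - zs (h * v)) * gB f N m b (h * v)) =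
        (zs v : Om) ^ (k - 1) * ∑ h ∈ T, (toO (h * v) - zs v) * gB f N m b (h * v) := by
      rw [Finset.mul_sum]
      exact Finset.sum_congr rfl fun h hh => by rw [hz h hh]
    rw [e1]
    congr 1
    rw [eq_inv_mul_iff_mul_eq₀ hv0, Finset.mul_sum, Finset.mul_sum, ← Finset.sum_add_distrib]
    refine Finset.sum_congr rfl fun h _ => ?_
    unfold gB
    rw [toO_sub, toO_one, toO_mul]
    ring
  rw [hE]
  have hzv : VP P (zs v : Om) := DI.VP.int _
  refine DL.GE.mul_left h3 hχb (DL.GE.mul_left h3 (hzv.pow _)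
    (DL.GE.mul_left h3 (DI.UP.inv hvu).1 (DL.GE.add h3 ?_ ?_)))
  · exact (DL.GE.mul h3 hv1 hA).mono hq1
  · refine DL.GE.sum h3 T _ (fun h hh => ?_)
    have hh1 := hT.mem h hh
    have k1 : GE P 3 (toO (h - 1)) := SU_27 hP hh1.2
    have hh3 : (f : OO n t) ∣ h - 1 := CV_cast_dvd (Dvd.intro _ rfl) hh1.1.1
    have k2 : VP P (gB f N m b (h * v)) := by
      refine (g1 (h * v) ?_).2
      have e : h * v - 1 = (h - 1) * v + (v - 1) := by ring
      rw [e]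
      exact dvd_add (Dvd.dvd.mul_right hh3 _) hvf
    exact DL.GE.mul_left h3 hzv ((DL.GE.mul_right h3 k1 ((toO_VP v).mul k2)).mono hq2)

theorem tSU : S_SU := by
  intro o4 d2 t0a rep gen hd sub chi gb cos n t _ P hP f N k m R χ z0 d SH hm hR hχ hN hp hO
  classical
  have hPp : P.IsPrime := hP.1.1
  have h3 := pl hP
  obtain ⟨h20, hm30, hm3, hmf, hmo, hmc, hm0, hmc3, hmcf⟩ := w_fm hm
  have hff : Fok (f * NI m) :=
    ⟨Nat.mul_pos hm.pos hm0, Dvd.dvd.mul_right hm.dvd _, Nat.Coprime.mul_left hm.cop hmc3⟩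
  obtain ⟨SH2, hO2⟩ := GL.genE gen hP hp.toPt (C := Hs (n := n) (t := t) f N) (GL.hs_un o4) (GL.hs_one f N)
  obtain ⟨SM, hOM⟩ := GL.genE gen hP hp.toPt (C := Hm (n := n) (t := t) f N) GL.hm_un (GL.hm_one f N)
  obtain ⟨hd1, -, hd2⟩ := hd n t P hP f N z0 d hp.toPt hN SM SH SH2 hOM hO hO2
  obtain ⟨q, hq⟩ : ∃ q : ℚ, q = 1 / 2 + dv n t P z0 d SH - 3 ^ 6 / 3 ^ N := ⟨_, rfl⟩
  rw [← hq]
  have hpos : (0 : ℚ) ≤ 3 ^ 6 / 3 ^ N := by positivity
  have hq1 : q ≤ 1 / 2 + dv n t P z0 d SH2 := by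
    rw [hq]
    have : dv n t P z0 d SH ≤ dv n t P z0 d SH2 + 3 ^ 6 / 3 ^ N := hd2
    linarith
  have hq2 : q ≤ 3 := by
    rw [hq]
    have : dv n t P z0 d SH ≤ 2 := hd1
    linarith
  have hqN : q ≤ N := by
    have : (4 : ℚ) ≤ N := by exact_mod_cast hN
    linarith
  unfold SI
  refine DL.GE.sum h3 R _ (fun b hb => ?_)
  have hbF := hR b hb
  obtain ⟨T, hT⟩ := (rep n t N (by omega)).1 (Hs (f * NI m) N)
  have hχb : VP P (χ b) := ((chi n t P hP f χ hm.toFok hχ).1 b).1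
  obtain ⟨g1, -, g3, -, -⟩ := gb n t P hP f N m b hm (by omega) hbF
  have key := cos n t f (f * NI m) N hm.toFok hff (Dvd.intro _ rfl) (by omega) T hT
    (Om ⧸ GEs P hP q)
    (fun v => QuotientAddGroup.mk (χ b * ((zs v : Om) ^ (k - 1) * ((toO v - zs v) * gB f N m b v))))
    (fun v => Pm N (NI b * Nm v) 1) (fun v hv => SU_cop (by omega) hv) ?_ ?_ ?_ ?_
  · refine (GEs_zero hP).1 ?_
    refine Eq.trans ?_ key
    refine (map_sum (QuotientAddGroup.mk' (GEs P hP q)) _ _).trans ?_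
    refine Finset.sum_congr rfl (fun p _ => ?_)
    by_cases hp : Pm N (NI b * Nm (bp (n := n) (t := t) f p)) 1
    · rw [if_pos hp, if_pos hp]
      rfl
    · rw [if_neg hp, if_neg hp]
      exact map_zero _
  · intro v u hv hd
    refine SU_pm hv ?_
    have h4 := Nm_congr (CV_cast_dvd (Dvd.intro_left _ rfl) hd : ((3 ^ N : ℕ) : OO n t) ∣ v - u)
    exact_mod_cast h4
  · intro v h hv hh
    rw [Nm_mul]
    refine SU_pm hv ?_
    have e : Nm v - Nm h * Nm v = -((Nm h - 1) * Nm v) := by ring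
    rw [e]
    exact (dvd_neg).2 (Dvd.dvd.mul_right hh.1.2.2 _)
  · intro v u hv hvf hd
    have hd3 : ((3 : ℕ) : OO n t) ∣ v - u :=
      CV_cast_dvd (Dvd.dvd.mul_left (dvd_pow_self 3 (by omega)) _) hd
    rw [w_cast3] at hd3
    have hz : zs v = zs u := w_zs_congr hd3
    have hg : gB f N m b v = gB f N m b u := (g3 v u hd).2
    refine (GEs_eq hP).2 ?_
    have e : χ b * ((zs v : Om) ^ (k - 1) * ((toO v - zs v) * gB f N m b v)) -
        χ b * ((zs u : Om) ^ (k - 1) * ((toO u - zs u) * gB f N m b u)) =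
        χ b * ((zs v : Om) ^ (k - 1) * (toO (v - u) * gB f N m b v)) := by
      rw [← hz, ← hg, toO_sub]
      ring
    rw [e]
    have hzv : VP P (zs v : Om) := DI.VP.int _
    exact DL.GE.mono (DL.GE.mul_left h3 hχb (DL.GE.mul_left h3 (hzv.pow _)
      (DL.GE.mul_right h3 (SU_pow hP hd) (g1 v hvf).2))) hqN
  · intro v hv hvf
    have h4 := SU_coset t0a sub chi gb (k := k) hP hm hbF hχ hN hp hO2 hT (SU_cop (by omega) hv) hvf hq1 hq2
    exact (map_sum (QuotientAddGroup.mk' (GEs P hP q)) _ _).symm.trans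
      ((GEs_zero hP).2 h4)

end Pool.Agent.DM.DU.LS
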