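import Pool.Agent.Lib.DU.LS.Spec

/-!
# Theorem DU, part LS, module U1: the valuations of the number `U(1)` (helper95, after `DR/LS/U1.lean`)
-/

set_option autoImplicit false

open scoped Pointwise

noncomputable section

namespace Pool.Agent.DM.DU.LS

open Pool.Agent.MuZ Pool.Agent.FW Pool.Agent.DN Pool.Agent.DM Pool.Agent.DM.DU
open Pool.Agent.DI (io ofC io_inj exists_io io_ofC ofC_io VP MP UP TP ex)
open Pool.Agent.DT (kap cbr)
open Pool.Agent.DM.G (Pm CN)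
open Pool.Agent.DM.GL (GE vP pl pH IsR Un)
open Pool.Agent.DM.DU.GL (II Cls Orb Hn Hm Hs PtN dv SS)

variable {n t : ℕ}

theorem tU1 : S_U1 := by
  intro o4 t0a gen hd lsa rs su n t _ P hP f N k m R χ T D z0 d SH hm hR hRC hχ hk hTy hN hT hD hp hO hmain
  classical
  have hPp : P.IsPrime := hP.1.1
  have h3 := pl hP
  obtain ⟨l1, l2⟩ := lsa n t P hP f N m χ T D z0 d SH hm hχ hN hT hp hO
    (fun c hc => ⟨(hD.mem c hc).1, (hD.mem c hc).2.1⟩) hmain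
  have hrs := rs n t P hP f N k m R χ T D hm hR hRC hχ hTy (by omega) hT hD
  have hsu := su n t P hP f N k m R χ z0 d SH hm hR hχ hN hp hO
  obtain ⟨SH2, hO2⟩ := GL.genE gen hP hp.toPt (C := Hs (n := n) (t := t) f N) (GL.hs_un o4) (GL.hs_one f N)
  obtain ⟨SM, hOM⟩ := GL.genE gen hP hp.toPt (C := Hm (n := n) (t := t) f N) GL.hm_un (GL.hm_one f N)
  have hd2 : dv n t P z0 d SH ≤ 2 := (hd n t P hP f N z0 d hp.toPt hN SM SH SH2 hOM hO hO2).1
  have hε : (0 : ℚ) ≤ 3 ^ 6 / 3 ^ N := by positivity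
  have hN' : (4 : ℚ) ≤ N := by exact_mod_cast hN
  obtain ⟨D0, hD0⟩ : ∃ D0 : ℚ, D0 = dv n t P z0 d SH := ⟨_, rfl⟩
  obtain ⟨ε, hε'⟩ : ∃ ε : ℚ, ε = 3 ^ 6 / 3 ^ N := ⟨_, rfl⟩
  rw [← hD0] at hd2
  rw [← hD0] at l1 l2
  rw [← hD0, ← hε'] at hsu
  rw [← hε'] at hε
  rw [← hD0, ← hε']
  obtain ⟨S, hS⟩ : ∃ S : Om, S = SS f N m χ T D := ⟨_, rfl⟩
  rw [← hS] at l1 l2 hrs
  obtain ⟨A, hA⟩ : ∃ A : Om, A = SI f N R 1 (fun b v => χ b * ((zs v : Om) ^ (k - 1) *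
    (toO v * gB f N m b v))) := ⟨_, rfl⟩
  obtain ⟨B, hB⟩ : ∃ B : Om, B = SI f N R 1 (fun b v => χ b * ((zs v : Om) ^ (k - 1) *
    ((toO v - zs v) * gB f N m b v))) := ⟨_, rfl⟩
  rw [← hA] at hrs
  rw [← hB] at hsu
  have hAB : UU f N k m R χ 1 = A - B := by
    rw [hA, hB]
    unfold UU SI
    rw [← Finset.sum_sub_distrib]
    refine Finset.sum_congr rfl fun b _ => ?_
    rw [← Finset.sum_sub_distrib]
    refine Finset.sum_congr rfl fun p _ => ?_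
    obtain ⟨k', rfl⟩ : ∃ k', k = k' + 1 := ⟨k - 1, by omega⟩
    split_ifs
    · rw [Nat.add_sub_cancel]
      ring
    · ring
  have hU : UU f N k m R χ 1 = S - (S - A) - B := by
    rw [hAB]; ring
  have e1 : GE P (1 / 2 + D0 - ε) (S - A) := hrs.mono (by linarith)
  rw [hU]
  refine ⟨?_, ?_⟩
  · exact DL.GE.sub h3 (DL.GE.sub h3 (l1.mono (by linarith)) (e1.mono (by linarith)))
      (hsu.mono (by linarith))
  · intro τ hτ hζ
    have k := l2 τ hτ hζ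
    obtain ⟨hw4, hw0, hP4, -⟩ := t0a
    obtain ⟨-, -, hroot⟩ := hP4 P hP
    have hι4 : (τ w4 / w4) ^ 4 = 1 := by
      rw [div_pow, ← map_pow, hw4]
      have h4 : τ (3 : Om) = 3 := map_ofNat τ 3
      rw [h4]
      exact div_self (by norm_num)
    have hιv : VP P (τ w4 / w4) := (hroot _ hι4).1.1
    have e : S - (S - A) - B - τ w4 / w4 * τ (S - (S - A) - B) =
        (S - τ w4 / w4 * τ S) - ((S - A) - τ w4 / w4 * τ (S - A)) - (B - τ w4 / w4 * τ B) := by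
      simp only [map_sub]
      ring
    rw [e]
    exact DL.GE.sub h3 (DL.GE.sub h3 (k.mono (by linarith))
      (DL.GE.sub h3 e1 (DL.GE.mul_left h3 hιv (DL.GE.inertia h3 hτ e1))))
      (DL.GE.sub h3 hsu (DL.GE.mul_left h3 hιv (DL.GE.inertia h3 hτ hsu)))

end Pool.Agent.DM.DU.LS
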