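import Pool.Agent.Lib.DU.GL.All
import Pool.Agent.Lib.DU.C.All
import Pool.Agent.Lib.DU.LS.Bt
import Pool.Agent.Lib.DU.LS.Gb
import Pool.Agent.Lib.DU.LS.RS
import Pool.Agent.Lib.DU.LS.Cos
import Pool.Agent.Lib.DU.LS.SU
import Pool.Agent.Lib.DU.LS.U1
import Pool.Agent.Lib.DU.LS.UAct
import Pool.Agent.Lib.DU.LS.Nrm
import Pool.Agent.Lib.DU.LS.Fou
import Pool.Agent.Lib.DU.LS.Ca
import Pool.Agent.Lib.DU.LS.LSm

/-!
# Theorem DU, part LS: `S_LS`, complete, no hypotheses (author helper89)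
-/

set_option autoImplicit false

noncomputable section

namespace Pool.Agent.DM.DU.LS

open Pool.Agent.DN Pool.Agent.DM

/-- `S_LS`: the local step. -/
theorem zLS : S_LS :=
  asmLS GL.aIn DU.zD9 (DU.aC4 DS.zR1) GL.aOut GL.aOutB tBt tGb tRS tCos tSU tU1 tUAct tNrm tFou tCa tLSm

end Pool.Agent.DM.DU.LS
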