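import Pool.Agent.Lib.DN.CV.Rp
import Pool.Agent.Lib.DS.G.All
import Pool.Agent.Lib.DM.G.RD
import Pool.Agent.Lib.DM.CV.V1
import Pool.Agent.Lib.DU.CV.Bas
import Pool.Agent.Lib.DU.GL.SpecB

/-!
# Theorem DU, part LS (author helper89): from the local step (`DU/GL/SpecB.lean`) to `S_LS`

After `DR/LS/Spec.lean` (2 ramified, the same structure), `DN/G/SpecB.lean` (helper21), `DM/GC/Spec.lean` (helper85; the same framing) and note 4353 (helper66). `M = f * 3 ^ N`; `gB f N m b v = (fr(b)/fr(1)) g_b(v/M)`; `β` runs through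
the elements `bp f p = 1 + f (x + y w)`, `p = (x, y) ∈ Bx N` (modulo `M`). `f' = f * NI m` (`Fok f'`): the classes of elements of `II` are taken for `f'`, so that `GL.C_Act` applies to `g`. `ε = 3^6/3^N`. `UU a` is the sum of `χ(b) zs(β)^k gB(b, β)` over
the classes with norm `± a` modulo `3^N`; for `σ ∈ II` of class `h`: `σ (w4^k UU a) = w4^k UU (N(h) a)`.

Tools. `DL/Va.lean`: `GE P q x` (`v(x) ≥ q` or `x = 0`), `vP P x`; `DL.GE.add`, `.sub`, `.neg`, `.mul`, `.mul_left`, `.mul_right`, `.sum`, `.mono`, `.mp`, `.vp_iff`, `.div`, `.inertia`, `DL.vl_pow`, ... (first argument `pl hP : DL.Pl P 3`; `have := hP.1.1` for the instance `P.IsPrime`, `hP : Ab3 P`). `DI/Val.lean`: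
`DI.VP.add`, `DI.MP.of_pow`, `DI.UP.mul`, ... `DN/Base.lean`: `toO_..`, `toC_..`, `lam_..`, `tor_..`, `cop_..`, `Nm_..`. `DN/CV/Bas.lean`: `CV_..` (`CV_zet_congr`, `CV_zet_pow`, `CV_cop_of_dvd`, `CV_cop_mul`, `CV_cast_mul`, `CV_cast_dvd`, `CV_NI_sp`, `CV_pri_pow`, ...), `DN/CV/Rp.lean`: `RpI` (indexed systems of
representatives), `RpI.sum`, `RpI.mul`, `ga`, `Rp_canc`. `DM/CV/Bas.lean` (`w_fok`, `w_fm`, `w_fb`, `w_fb_mul`, `w_fb_sp`, `w_up`, `w_upN`, ..), `DU/CV/Bas.lean` (`tm_isG`, `w_tm`, `w_tm_cop`, `w_tm_ex`, `w_zs`, `w_zs_congr`), `DU/O/O4.lean` (`zs_..`), `DM/CV/Phi.lean` (`gO_per`, `gO_hom`), `DU/CV/Phi.lean` (`gO_vp`), `DM/CV/C10.lean`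
(`RpI_ga`), `DM/CV/V1.lean` (`v_rO`, `v_4`, `v_G30`, `v_cop3f`, ..). COMPLETE, to be used directly: parts O, L (`aO1 ..` without `aO4`, `aL1 .. aL5`), B (`DN/B/All.lean`), `DS.G.aCop`, `DS.G.aRUp`, `DS.G.aRI`, `DM.G.aHNf`, `DM.G.aRB`, `DM.G.aRD`.

RULES: the statement `S_X` is to be proved as `theorem tX : S_X` in the module `Pool/Agent/Lib/DU/LS/X.lean` with the first line
`import Pool.Agent.Lib.DU.LS.Spec`, `set_option autoImplicit false`, `open scoped Pointwise`, `noncomputable section`, `namespace Pool.Agent.DM.DU.LS` and the `open`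
lines of this file. Auxiliary declarations are `private`. All modules are independent.
-/

set_option autoImplicit false

open scoped Pointwise

noncomputable section

namespace Pool.Agent.DM.DU.LS

open Pool.Agent.MuZ Pool.Agent.FW Pool.Agent.DN Pool.Agent.DM Pool.Agent.DM.DU
open Pool.Agent.DI (io ofC io_inj exists_io io_ofC ofC_io VP MP UP TP ex)
open Pool.Agent.DT (kap cbr)
open Pool.Agent.DM.G (Pm CN)
open Pool.Agent.DM.GL (GE vP pl pH IsR Un)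
open Pool.Agent.DM.DU.GL (II Cls Orb Hn Hm Hs PtN dv SS)

variable {n t : ℕ}

/-! ## Definitions -/

/-- The pairs `(x, y)` modulo `3 ^ N`. -/
def Bx (N : ℕ) : Finset (ℕ × ℕ) := Finset.range (3 ^ N) ×ˢ Finset.range (3 ^ N)

/-- `1 + f (x + y w)`. -/
def bp (f : ℕ) (p : ℕ × ℕ) : OO n t := ga f p.1 p.2

/-- The term `(fr(b)/fr(1)) g_b(v/(f 3^N))`. -/
def gB (f N : ℕ) (m b : Ideal (OO n t)) (v : OO n t) : Om :=
  rO (⊤ : Ideal (OO n t)) b * gO m b (toC v / (f * 3 ^ N : ℕ))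

open Classical in
/-- The sum over the classes `(b, β)`, `b ∈ R`, `β = 1 + f (x + y w)` modulo `f 3^N`, with `N(b) N(β) = ± a` modulo `3^N`. -/
def SI (f N : ℕ) (R : Finset (Ideal (OO n t))) (a : ℤ) (φ : Ideal (OO n t) → OO n t → Om) : Om :=
  ∑ b ∈ R, ∑ p ∈ Bx N, if Pm N (NI b * Nm (bp (n := n) (t := t) f p)) a then φ b (bp f p) else 0

/-- The number `U(a)`. -/
def UU (f N k : ℕ) (m : Ideal (OO n t)) (R : Finset (Ideal (OO n t)))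
    (χ : Ideal (OO n t) → Om) (a : ℤ) : Om :=
  SI f N R a (fun b v => χ b * ((zs v : Om) ^ k * gB f N m b v))

/-- The numbers `a < 3^N`, `a = 1` modulo `3`: the norms of the elements prime to `3`, modulo `3 ^ N`. -/
def As (N : ℕ) : Finset ℕ := (Finset.range (3 ^ N)).filter (fun a => a % 3 = 1)

/-- The additive group of the `x` with `v(x) ≥ q`. -/
def GEs (P : Ideal ZZ) (hP : Ab3 P) (q : ℚ) : AddSubgroup Om where
  carrier := {x | GE P q x}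
  zero_mem' := DL.GE.zero q
  add_mem' := by
    intro x y hx hy
    have := hP.1.1
    exact DL.GE.add (pl hP) hx hy
  neg_mem' := by
    intro x hx
    have := hP.1.1
    exact DL.GE.neg (pl hP) hx

theorem GEs_eq {P : Ideal ZZ} (hP : Ab3 P) {q : ℚ} {x y : Om} :
    (QuotientAddGroup.mk x : Om ⧸ GEs P hP q) = QuotientAddGroup.mk y ↔ GE P q (x - y) := by
  have := hP.1.1
  rw [QuotientAddGroup.eq]
  change GE P q (-x + y) ↔ GE P q (x - y)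
  have e1 : -x + y = -(x - y) := by ring
  rw [e1]
  constructor
  · intro h
    have h1 := DL.GE.neg (pl hP) h
    rwa [neg_neg] at h1
  · intro h
    exact DL.GE.neg (pl hP) h

theorem GEs_zero {P : Ideal ZZ} (hP : Ab3 P) {q : ℚ} {x : Om} :
    (QuotientAddGroup.mk x : Om ⧸ GEs P hP q) = 0 ↔ GE P q x :=
  QuotientAddGroup.eq_zero_iff x

/-! ## 1. Representatives, class functions -/

open Classical in
/-- The systems of representatives modulo `f 3^N`. -/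
def C_Bt : Prop :=
  ∀ (n t : ℕ) [Ram3 n t] (f N : ℕ), Fok f →
    RpI (fun v : OO n t => (f : OO n t) ∣ v - 1) (f * 3 ^ N) (Bx N) (bp f) ∧
    (1 ≤ N →
      RpI (fun v : OO n t => (f : OO n t) ∣ v - 1 ∧ Cop v 3) (f * 3 ^ N)
        ((Bx N).filter (fun p => Cop (bp (n := n) (t := t) f p) 3)) (bp f) ∧
      RpI (fun v : OO n t => (f : OO n t) ∣ v - 1 ∧ Cop v 3) (f * 3 ^ N)
        (tm n t f ×ˢ Bx (N - 1)) (fun p => p.1 * ga (3 * f) p.2.1 p.2.2))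

/-- (80 lines) **Bt**. Edit of `DN/G/Bt.lean` or `DM/GC/Bt.lean` (proof in the docstring of `DM.GC.S_Bt`). PROOF. First: `v = 1 + f γ`, `γ = ⟨x', y'⟩`; `p` = the residues of `x', y'` modulo `3^N`; injectivity: `f 3^N ∣ f (x - x')` gives `3^N ∣ x - x'` (`nat_dvd_iff`), both `< 3^N`. Second: from the first; `Cop` is invariant (`cop_congr`, `3 ∣ f 3^N`).
Third: `RpI_ga` (`DM/CV/C10.lean`) with `p = 3`, `e = 3 f`, `q' = 3^(N-1)` (`3 f * 3^(N-1) = f * 3^N`), `S = tm n t f`, `α = id`, and `RpI .. (3 f) (tm n t f) id`: `tm_isG` (`DU/CV/Bas.lean`; `IsG f 1`, `f * 3 ^ 1 = 3 * f`); `Cop α (3 f 3^(N-1))`: `w_tm_cop`. -/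
def S_Bt : Prop := C_Bt

/-- The terms `gB`: homogeneity, class function modulo `3^N`. -/
def C_Gb : Prop :=
  ∀ (n t : ℕ) [Ram3 n t] (P : Ideal ZZ), Ab3 P → ∀ (f N : ℕ) (m b : Ideal (OO n t)), FM f m → 1 ≤ N → FB f b →
    (∀ v : OO n t, (f : OO n t) ∣ v - 1 → VP P (gO m b (toC v / (f * 3 ^ N : ℕ))) ∧ VP P (gB f N m b v)) ∧
    (∀ v : OO n t, Cop v (3 * f) → toC v / (f * 3 ^ N : ℕ) ∉ Lam (m * b)) ∧
    (∀ v u : OO n t, ((f * 3 ^ N : ℕ) : OO n t) ∣ v - u →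
      gO m b (toC v / (f * 3 ^ N : ℕ)) = gO m b (toC u / (f * 3 ^ N : ℕ)) ∧ gB f N m b v = gB f N m b u) ∧
    (∀ v u : OO n t, Cop v (3 * f) → Cop u (3 * f) →
      gB f N m (sp v * b) u = toO v * gB f N m b (v * u)) ∧
    (∀ v u : OO n t, (f : OO n t) ∣ v - 1 → Cop v 3 →
      gO m (sp v * b) (toC u / (f * 3 ^ N : ℕ)) = gO m b (toC (v * u) / (f * 3 ^ N : ℕ))) ∧
    ∀ b' : Ideal (OO n t), FB f b' → Ray (f * 3 ^ N) b b' → GE P N (gB f N m b 1 - gB f N m b' 1)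

/-- (140 lines) **Gb** (from B7, R1, D2, D9). The proof is that of `DM/GC/Gb.lean` (docstring of `DM.GC.S_Gb`) word for word (`gO_vp` is the one of `DU/CV/Phi.lean`, `import Pool.Agent.Lib.DU.CV.Phi`; `rO ⊤ b` is a unit: the seventh item of S_D2 for `b := ⊤`, `a := b`; for `toC v / M ∉ Lam a`, `Cop v M`, `a` prime to `M`: see `CV_pt` or: `x + M y = 1` with `x ∈ a`, ...). -/
def S_Gb : Prop := S_B7 → S_R1 → S_D2 → S_D9 → C_Gb

/-- **RS**. Reindexing: the classes modulo `f 3^N` with norm `± 1`. -/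
def C_RS : Prop :=
  ∀ (n t : ℕ) [Ram3 n t] (P : Ideal ZZ), Ab3 P → ∀ (f N k : ℕ) (m : Ideal (OO n t))
    (R : Finset (Ideal (OO n t))) (χ : Ideal (OO n t) → Om) (T : Finset (OO n t))
    (D : Finset (Ideal (OO n t))), FM f m → FR f R → IsRC f R → IsChi (3 * f) χ →
    Ty P f χ (k - 1) → 1 ≤ N → IsRep f N T → IsDS f N D →
    GE P N (SS f N m χ T D -
      SI f N R 1 (fun b v => χ b * ((zs v : Om) ^ (k - 1) * (toO v * gB f N m b v))))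

/-- (150 lines) **RS** (from Chi, Gb). Adapt `DN/G/RS.lean` or `DR/LS/RS.lean` (here only `a = 1`, `a0 = ⊤`). PROOF. `A = Om ⧸ GEs P hP N`, `F b' = mk (χ b' * gB f N m b' 1)` (`GEs_eq`). `F b = F b'` for `CN f N b`, `CN f N b'`, `Ray (f 3^N) b b'`: `χ b = χ b'` (`Ray (3 f)`: `aO7` (7), `3 f ∣ f 3^N`), Gb (6), `GE.mul_left` (`VP P (χ b)`: Chi (1)). FIRST SYSTEM: `DM.G.aRB` (`ga f x y = bt n t f x y` by `rfl`) with
`I = (R ×ˢ Bx N).filter (..)`, `B = I.image (fun p => sp (bt ..) * p.1)`; `∑_(b' ∈ B) F b' = ∑_(p ∈ I) F (sp β * b)` (`Finset.sum_image`), and `χ (sp β * b) * gB (sp β * b) 1 = χ b * (zs β ^ (k-1) * (toO β * gB b β))` (`IsChi.mul`, Chi (3) for `k - 1`, Gb (4) with `u = 1`; `Pm` implies that `Nm β` is prime to `3` (`1 ≤ N`), so `Cop β 3`, `Cop β (3 f)`, `f ∣ β - 1`: `ga_sub_one`). This is `mk` of the `SI`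
(`Finset.sum_filter`, `Finset.sum_product`). SECOND SYSTEM: `DM.G.aRD` (`IsDS.mem`, `ex`, `uni`: `CN f N c`) with `B' = (D ×ˢ T).image (fun p => sp p.2 * p.1)`: `χ (sp h * c) * gB (sp h * c) 1 = χ c * (toO h * gB c h)` (`HN f N h`: `Hf f h`, Chi (2), `Cop h (3 f)`; Gb (4)): this is `mk` of `SS`. `DS.G.aRI` (`M = f 3^N`, `C = CN f N`): the two sums of `F` are equal. -/
def S_RS : Prop := GL.C_Chi → C_Gb → C_RS

open Classical in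
/-- **Cos**. A sum over a union of cosets of the group `Hs f' N` vanishes if the sums over the cosets do. -/
def C_Cos : Prop :=
  ∀ (n t : ℕ) [Ram3 n t] (f f' N : ℕ), Fok f → Fok f' → f ∣ f' → 3 ≤ N → ∀ T : Finset (OO n t),
    IsR N (Hs f' N) T →
    ∀ (A : Type) [AddCommGroup A] (a : OO n t → A) (C : OO n t → Prop), (∀ v, C v → Cop v 3) →
      (∀ v u : OO n t, C v → ((f * 3 ^ N : ℕ) : OO n t) ∣ v - u → C u) →
      (∀ v h : OO n t, C v → Hs f' N h → C (h * v)) →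
      (∀ v u : OO n t, C v → (f : OO n t) ∣ v - 1 → ((f * 3 ^ N : ℕ) : OO n t) ∣ v - u → a v = a u) →
      (∀ v : OO n t, C v → (f : OO n t) ∣ v - 1 → ∑ h ∈ T, a (h * v) = 0) →
      (∑ p ∈ Bx N, if C (bp f p) then a (bp f p) else 0) = 0

/-- (160 lines) **Cos** (from Bt). Edit of `DR/LS/Cos.lean` (proved; `2 → 3`, `2^10 ∣ h - 1` is now `27 ∣ h - 1`, and `h - 1 ∈ pp` in `Hn`: clear from `27 ∣ h - 1`, `3 ∈ pp`; the norm is `1` modulo `3^N`). PROOF. Strong induction on the number of elements of `J = {p ∈ Bx N | C (bp p)}` (for all `C` with the first three properties; the other two are inherited by a smaller `C`). `J = ∅`: clear. Otherwise let `v0 = bp p0`, `p0 ∈ J`, and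
`E v :⇔ (f : O) ∣ v - 1 ∧ ∃ h, Hs f' N h ∧ f 3^N ∣ v - h * v0`. `Hs f' N` is closed under products, contains `1` (`GL.hs_one`), and every `h` with `Hs f' N h` has an inverse: `h''` with `Hs f' N h''`, `f' 3^N ∣ h h'' - 1` (`cop_inv` modulo `f' 3^N`; `f' ∣ h'' - 1`, `27 ∣ h'' - 1` as `3 ≤ N`, `Nm h'' = 1` modulo `3^N`: `Nm_mul`, `Nm_congr`). `C' v :⇔ C v ∧ ¬ ∃ h, Hs f' N h ∧ f 3^N ∣ v - h * v0` has the first three
properties, and `p0` is not in its set `J'`. The sum over `J` is the sum over `J'` (`0` by induction) plus the sum over `{p ∈ Bx N | E (bp p)}`, which is `∑ h ∈ T, a (h * v0) = 0` by `RpI.sum` for the property `Q = E` and the two systems `(Bx N).filter (E ∘ bp)`, `bp` (Bt) and `T`, `fun h => h * v0` (`mem`: `Hs f' N h`, `f ∣ h - 1`; `inj`: `f 3^N ∣ (h - h') v0`, so `3^N ∣ h - h'` (`Rp_canc`), `IsR.uni`;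
`ex`: `IsR.ex`: `3^N ∣ h - h1`, and `f ∣ h - h1`, so `f 3^N ∣ h - h1` (`CV_cast_mul`)). -/
def S_Cos : Prop := C_Bt → C_Cos

/-- **SU**. The comparison of `β` with `zs β`. -/
def C_SU : Prop :=
  ∀ (n t : ℕ) [Ram3 n t] (P : Ideal ZZ), Ab3 P → ∀ (f N k : ℕ) (m : Ideal (OO n t))
    (R : Finset (Ideal (OO n t))) (χ : Ideal (OO n t) → Om) (z0 d : ℂ) (SH : Finset Om), FM f m →
    FR f R → IsChi (3 * f) χ → 4 ≤ N → PtN n t f N z0 d → Orb z0 d (Hn (n := n) (t := t) f N) SH →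
    GE P (1 / 2 + dv n t P z0 d SH - 3 ^ 6 / 3 ^ N)
      (SI f N R 1 (fun b v => χ b * ((zs v : Om) ^ (k - 1) * ((toO v - zs v) * gB f N m b v))))

/-- (170 lines) **SU** (from O4, D2, T0a, Rep, Gen, HD, Sub, Chi, Gb, Cos). Compare `DR/LS/SU.lean`, `DM/GC/SU.lean`. PROOF. `ε = 3^6/3^N`, `q = 1/2 + dv SH - ε`; `SH2`, `SM` with `Orb z0 d (Hs f N) SH2`, `Orb z0 d (Hm f N) SM` (`GL.genE`, `GL.hs_un`, `GL.hm_un`, `GL.hs_one`, `GL.hm_one`); HD: `dv SH ≤ 2`, `dv SH - ε ≤ dv SH2`, so `q ≤ 1/2 + dv SH2` and `q ≤ 5/2 ≤ 3 ≤ N`. `GE.sum` over `b ∈ R`: fix `b` (`FB f b`).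
`f' = f * NI m`, `Fok f'` (`w_fm`). `T` with `IsR N (Hs f' N) T` (Rep (1)). Cos with `A = Om ⧸ GEs P hP q`, `C v :⇔ Pm N (NI b * Nm v) 1` (so `Nm v` is prime to `3`; invariant by `Nm_congr`, and by `h` with `Hs f' N h`: `Nm h = 1` modulo `3^N`), `a v = mk (χ b * (zs v ^ (k-1) * ((toO v - zs v) * gB f N m b v)))`. PERIODICITY (`f 3^N ∣ v - u`): `zs v = zs u` (`w_zs_congr`), `gB` (Gb (3)), and
`toO v - toO u = toO (v - u)` is `3^N` times an integral element: the difference is in `GE P N`. COSETS: fix `v`, `f ∣ v - 1`, `C v`, so `Cop v 3`, `Cop v (3 f)`. `zs (h v) = zs v` for `h ∈ T` (`3 ∣ h v - v`). `A1 = ∑_(h ∈ T) toO (h v) * gB b (h v)`: `GE (dv SH2)` (Sub for `c = b`). `B1 = ∑_(h ∈ T) gB b (h v)`: `toO v * B1 = A1 - ∑ toO (h - 1) * (toO v * gB b (h v))`, `27 ∣ h - 1`: the last sum is `GE 3`.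
`toO v` is a unit, `GE (1/2) (toO v - zs v)` (T0a). The sum is `χ b * zs v ^ (k-1) * (A1 - zs v * B1)`, `A1 - zs v * B1 = (toO v)⁻¹ * ((toO v - zs v) * A1 + (GE 3))`: `GE q`. (`VP P (χ b)`: Chi (1).) -/
def S_SU : Prop :=
  S_O4 → S_D2 → GL.C_T0a → GL.C_Rep → GL.C_Gen → GL.C_HD → GL.C_Sub → GL.C_Chi → C_Gb → C_Cos → C_SU

/-- **U1**. The valuations of the number `U(1)`. -/
def C_U1 : Prop :=
  ∀ (n t : ℕ) [Ram3 n t] (P : Ideal ZZ), Ab3 P → ∀ (f N k : ℕ) (m : Ideal (OO n t))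
    (R : Finset (Ideal (OO n t))) (χ : Ideal (OO n t) → Om) (T : Finset (OO n t))
    (D : Finset (Ideal (OO n t))) (z0 d : ℂ) (SH : Finset Om), FM f m → FR f R → IsRC f R →
    IsChi (3 * f) χ → 1 ≤ k → Ty P f χ (k - 1) → 4 ≤ N → IsRep f N T → IsDS f N D → PtN n t f N z0 d →
    Orb z0 d (Hn (n := n) (t := t) f N) SH →
    (∀ g : Gal(Om/ℚ), IsD n t f P g → MP P (∑ c ∈ D, χ c * ((kap (uN f N m T c) g).val : Om))) →
      GE P (dv n t P z0 d SH - 3 ^ 6 / 3 ^ N) (UU f N k m R χ 1) ∧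
      ∀ τ ∈ P.inertia Gal(Om/ℚ), (∀ ζ : Om, ζ ^ 3 ^ N = 1 → τ ζ = ζ⁻¹) →
        GE P (1 / 2 + dv n t P z0 d SH - 3 ^ 6 / 3 ^ N)
          (UU f N k m R χ 1 - τ w4 / w4 * τ (UU f N k m R χ 1))

/-- (90 lines) **U1** (from O4, T0a, Gen, HD, LSA, RS, SU). Compare `DR/LS/U1.lean`. PROOF. LSA for `D` (`IsDS.mem`). RS: `SS .. D = SI(zs^(k-1) toO v * gB) + GE N`; `SI` is additive in `φ` (`Finset.sum_sub_distrib`, `ite`), `zs^(k-1) * (toO v * g) - zs^(k-1) * ((toO v - zs v) * g) = zs^k * g` (`k ≥ 1`): `UU 1 = SI(zs^(k-1) toO v gB) - SI(zs^(k-1) (toO v - zs v) gB)`, SU for the second. HD (`SH2`, `SM` by `GL.genE`):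
`dv SH ≤ 2`, so `N ≥ 1/2 + dv SH`. So `UU 1 = SS + E`, `E` is `GE (1/2 + dv - ε)`; `τ E` too (`GE.inertia`), `τ w4 / w4` is a fourth root of unity, a unit (T0a). All claims follow (`dv - ε ≤ dv`). -/
def S_U1 : Prop := S_O4 → GL.C_T0a → GL.C_Gen → GL.C_HD → GL.C_LSA → C_RS → C_SU → C_U1

/-- **UAct**. The action of inertia on the numbers `U(a)`. -/
def C_UAct : Prop :=
  ∀ (n t : ℕ) [Ram3 n t] (P : Ideal ZZ), Ab3 P → ∀ (f N k : ℕ) (m : Ideal (OO n t))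
    (R : Finset (Ideal (OO n t))) (χ : Ideal (OO n t) → Om), FM f m → FR f R → IsChi (3 * f) χ → 1 ≤ N →
    (∀ a a' : ℤ, Pm N a a' → UU f N k m R χ a = UU f N k m R χ a') ∧
    ∀ (a : ℤ) (h : OO n t) (τ : Gal(Om/ℚ)), ¬ (3 : ℤ) ∣ a → Cls P (f * NI m) N h τ →
      τ (w4 ^ k * UU f N k m R χ a) = w4 ^ k * UU f N k m R χ (Nm h * a)

/-- (140 lines) **UAct** (from O4, Act, Tc, Chi, Gb, Bt). Adapt `DR/LS/UAct.lean` (proved) or `DM/GC/UAct.lean`. PROOF. (1) `Pm N x a ↔ Pm N x a'` if `Pm N a a'`. (2) `f' = f * NI m`, `Fok f'` (`w_fm`). `τ (w4 ^ k) = zs h ^ k * w4 ^ k` (Tc (1)). Let `b ∈ R`, `v = bp f p`, `Pm N (NI b * Nm v) a`: `Nm v` is prime to `3` (`N ≥ 1`), `Cop v (3 f)` (`f ∣ v - 1`: `ga_sub_one`). `τ (χ b) = χ b` (Chi (1);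
`Cls.mem`: `τ` is in the inertia group), `τ (rO ⊤ b) = rO ⊤ b`, `τ (gO m b (toC v / M)) = gO m b (toC (h * v) / M)` (Act for `f'`: `NI m ∣ f'`, `(f' 3^N) z = toC (NI m * v) ∈ Lam b`, `z ∉ Lam (m * b)`: Gb (2)), `zs h ^ k * zs v ^ k = zs (h * v) ^ k` (S_O4). So `τ (w4^k UU a) = w4^k * ∑_b ∑_p F_b (h * bp f p)`, `F_b u = if Pm N (NI b * Nm u) (Nm h * a) then χ b * (zs u ^ k * gB f N m b u) else 0`, because
`Pm N (NI b * Nm v) a ↔ Pm N (NI b * Nm (h * v)) (Nm h * a)` (`Nm h` is prime to `3`, so invertible modulo `3^N`). `F_b` is periodic modulo `f 3^N` on the elements `= 1` modulo `f` (`w_zs_congr`, Gb (3), `Nm_congr`). `RpI.mul` (with an inverse of `h` modulo `f 3^N`, which is `= 1` modulo `f`) and `RpI.sum` for the first system of Bt: `∑_p F_b (h * bp f p) = ∑_p F_b (bp f p)`. -/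
def S_UAct : Prop := S_O4 → GL.C_Act → GL.C_Tc → GL.C_Chi → C_Gb → C_Bt → C_UAct

/-- The set `As`. -/
def C_Nrm : Prop :=
  ∀ (n t : ℕ) [Ram3 n t] (N : ℕ), 1 ≤ N →
    (∀ s : ℤ, ¬ (3 : ℤ) ∣ s → ∃ a ∈ As N, Pm N s a) ∧ (∀ a ∈ As N, ∀ a' ∈ As N, Pm N a a' → a = a') ∧
    (∀ a ∈ As N, ¬ (3 : ℤ) ∣ (a : ℤ)) ∧
    (∀ (f' a : ℕ), Fok f' → a ∈ As N → ∃ h : OO n t, (f' : OO n t) ∣ h - 1 ∧ Cop h 3 ∧ (3 : ℤ) ^ N ∣ Nm h - a) ∧
    ∀ h : OO n t, Cop h 3 → ∃ a ∈ As N, (3 : ℤ) ^ N ∣ Nm h - a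

/-- (110 lines) **Nrm** (from O4). PROOF. (1) `s = 1` or `-1` modulo `3`; `a = (± s) mod 3^N` (`Int.emod`, `Int.toNat`; `3 ∣ 3^N`). (2) `a = a' = 1` modulo `3`: `3^N ∣ a + a'` is impossible (`3 ∤ 2`); `|a - a'| < 3^N`. (4) `3 ∣ a - 1`: there is an integer `w` with `3^N ∣ w² - a`, `3 ∣ w - 1`: `3^N ∣ a^(3^(N-1)) - 1` (`dvd_sub_pow_of_dvd_sub`, `p = 3`, `b = 1`), `3^(N-1) + 1 = 2 j`, `w = a^j` (see `DM/G/GRm.lean`, module `V0` of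
`DM/GC`). `x f' + y 3^N = 1` (Bezout), `v0 = x f' w + y 3^N` is `w` modulo `3^N` and `1` modulo `f'`; `h = (v0 : O)`, `Nm h = v0²` (`Nm ⟨c, 0⟩ = c²`). `Cop h 3`: the norm is `1` modulo `3`. (5) `3 ∣ Nm h - 1` (S_O4: `Cop v 3 → 3 ∣ Nm v - 1`), `a = Nm h mod 3^N`. -/
def S_Nrm : Prop := S_O4 → C_Nrm

/-- **Fou**. The formula for `xs`. -/
def C_Fou : Prop :=
  ∀ (n t : ℕ) [Ram3 n t] (P : Ideal ZZ), Ab3 P → ∀ (f N k e : ℕ) (m : Ideal (OO n t))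
    (R : Finset (Ideal (OO n t))) (χ : Ideal (OO n t) → Om), FM f m → FR f R → 2 ≤ N → ∀ c : ℤ,
      xs f k e m R (tw e χ) (c / 3 ^ (N - 2)) = w4 ^ k * ((3 ^ N)⁻¹ * ∑ a ∈ As N,
        (zet (3 ^ (N - 1)) ^ (c * NI m * a : ℤ) + (-1) ^ e * zet (3 ^ (N - 1)) ^ (-(c * NI m * a) : ℤ)) *
          UU f N k m R χ a)

/-- (190 lines) **Fou** (from O4, C4, Gb, Bt, Nrm). Adapt `DR/LS/Fou.lean`, `DM/GC/Fou.lean`. PROOF. `q = 3^(N-1)`, `ζ = zet q` (`ζ^q = 1`: `CV_zet_pow`, `CV_zet_congr`), `M = f 3^N = 3 f q`, `ν = NI m` (prime to `3`). (1) Let `b ∈ R`, `c' : ℤ`, `α ∈ tm n t f` (`w_tm`, `w_tm_cop`; `FB f (sp α * b)`; `PrI (sp α * b) q`: `CV_pri_pow`; `q.Coprime ν`). S_C4 for `sp α * b` and `(c' / q : ℚ) = (c' / 3^(N-2)) / 3`,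
`NI (sp α * b) = Nm α * NI b` (`CV_NI_sp`), Gb (5) (`u = ⟨1 + 3 f x, 3 f y⟩ = ga (3 f) x y`; `f ∣ α - 1`): `etaM (3 f) m (sp α * b) (c'/q) = (1/q) ∑_(x, y < q) ζ^(c' (ν NI b Nm (α u))) * gO m b (toC (α u) / M)`. `zs α = zs (α u)` (`w_zs_congr`). So by Bt (second and third system, `RpI.sum`; the summand `Φ_c' v = zs v ^ k * (ζ^(c' (ν NI b Nm v)) * gO m b (toC v / M))` is periodic modulo `M`: `w_zs_congr`, Gb (3),
`Nm_congr`): `etE f k m b (c'/3^(N-2)) = (1/q) ∑_(p ∈ Bx N, Cop (bp f p) 3) Φ_c' (bp f p)`. (2) With `c' = c` and `c' = -c`, `3 q = 3^N`: `xs .. (tw e χ) = w4^k (3^N)⁻¹ ∑_b χ b oN(b)^e rO ⊤ b ∑_(p, Cop) zs^k (ζ^(c ν s) + (-1)^e ζ^(-(c ν s))) gO m b (..)`, `s = NI b * Nm (bp f p)`, prime to `3`. (3) For every integer `s` prime to `3` there is exactly one `a ∈ As N` with `Pm N s a` (Nrm; `Pm` is an equivalence relation),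
and `Nm (bp f p) = 1` modulo `3` (S_O4), so `NI b = s` modulo `3`: if `3^N ∣ s - a` then `NI b = 1` modulo `3`, `oN b = 1`, and the coefficient is `κ_a = ζ^(c ν a) + (-1)^e ζ^(-(c ν a))`; if `3^N ∣ s + a` then `oN b = -1` and the coefficient is `(-1)^e (ζ^(-(c ν a)) + (-1)^e ζ^(c ν a)) = κ_a`. So insert `1 = ∑_(a ∈ As N) [Pm N s a]` and exchange the sums: the right side by the definition of `UU`, `SI`, `gB`
(if `Pm N s a`, `a ∈ As N`, then `s` is prime to `3` and `Cop (bp f p) 3`). -/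
def S_Fou : Prop := S_O4 → S_C4 → C_Gb → C_Bt → C_Nrm → C_Fou

/-! ## 2. The end of the local step -/

/-- **Ca**. The final estimate. -/
def C_Ca : Prop :=
  ∀ (n t : ℕ) [Ram3 n t] (P : Ideal ZZ), Ab3 P → ∀ (f N k e : ℕ) (m : Ideal (OO n t))
    (R : Finset (Ideal (OO n t))) (χ : Ideal (OO n t) → Om) (z0 d : ℂ) (SH : Finset Om) (θ : Om), FM f m →
    FR f R → IsChi (3 * f) χ → (k = 1 ∨ k = 2) → (e = 0 ∨ e = 1) → (k = 1 → e = 1) → 8 ≤ N →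
    PtN n t f N z0 d → Orb z0 d (Hn (n := n) (t := t) f N) SH → θ ^ 3 ^ N = 1 →
    (k = 1 → θ ≠ 1 ∧ (2 * 3 ^ 6 : ℚ) / 3 ^ N ≤ vP P (θ ^ 2 - 1)) →
    GE P (dv n t P z0 d SH - 3 ^ 6 / 3 ^ N) (UU f N k m R χ 1) →
    (∀ τ ∈ P.inertia Gal(Om/ℚ), (∀ ζ : Om, ζ ^ 3 ^ N = 1 → τ ζ = ζ⁻¹) →
      GE P (1 / 2 + dv n t P z0 d SH - 3 ^ 6 / 3 ^ N)
        (UU f N k m R χ 1 - τ w4 / w4 * τ (UU f N k m R χ 1))) →
    MP P (w4 ^ k * ((3 ^ N)⁻¹ * ∑ a ∈ As N, (θ ^ a + (-1) ^ e * (θ ^ a)⁻¹) * UU f N k m R χ a))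

/-- (240 lines) **Ca** (from O4, T0a, In, Act, Sur, Gen, HD, TrN, Tc, Tau, UAct, Nrm). Compare `DR/LS/CaA.lean` (proved). PROOF. `D = dv SH`, `ε = 3^6/3^N`, `2 ε ≤ 1/4` (`8 ≤ N`), `SM` with `Orb z0 d (Hm f N) SM`, `SH2` (`GL.genE`), `DM = dv SM ≤ D + ε` (HD). `f' = f * NI m` (`Fok f'`, `f ∣ f'`: `w_fm`). `κ = θ + (-1)^e θ⁻¹`, `U = UU 1`, `z = κ * (w4^k U)`. For `a ∈ As N` let `h_a` be from Nrm (4) (for `f'`), `s a` with
`Cls P f' N h_a (s a)` (Sur). Act (1): `s a θ = θ ^ (Nm h_a).toNat = θ ^ a` (`Nm h_a ≥ 0`, `3^N ∣ Nm h_a - a`, `θ ^ 3^N = 1`), UAct (2), (1): `s a (w4^k U) = w4^k UU (Nm h_a) = w4^k UU a`. So `s a z = (θ^a + (-1)^e (θ^a)⁻¹) * (w4^k UU a)`, and with `x = (3^N)⁻¹ ∑_(a ∈ As N) s a z` the claim is `MP P x`. INVARIANCE (I): `σ` with `Cls P f' N h σ`, `Hm f' N h` fixes `θ` and `w4^k U`, so `z`. VALUATIONS. `vP P w4 = 1/4` (T0a).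
`κ`: integral; for `k = 1` (`e = 1`): `κ = (θ^2 - 1) θ⁻¹`, `GE (2 ε) κ`. So `z` is `GE (k/4 + D - ε)` and for `k = 1` `GE (1/4 + 2 ε + D - ε)`: in both cases `GE (1/4 + DM)` (`k = 2`: `1/2 - ε ≥ 1/4 + ε`). TrN (first claim; `A = As N`; Nrm (5), (2)): `GE N (∑ s a z)`, so `VP P x`. `τ` from Tau (1): `τ ζ = ζ⁻¹`; `τ ∉ GK` (Tau (2)), `ι = τ w4 / w4`, `ι^2 = -1` (Tc (2)), `ι` is a fourth root of unity: fixed by the inertia group (T0a).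
`E = U - ι τ U` is `GE (1/2 + D - ε)`, `τ U = -ι (U - E)`. `τ κ = (-1)^e κ` (`τ θ = θ⁻¹`, `(-1)^e (-1)^e = 1`). `τ z = (-1)^e κ ι^k w4^k τ U = -(-1)^e ι^(k+1) (z - κ w4^k E)`. `z' := τ z + (-1)^e ι^(k+1) z = (-1)^e ι^(k+1) κ w4^k E`: `GE (3/4 + DM)` as before. CONJUGATION: for `σ` with `Cls P f' N h σ` the element `τ⁻¹ σ τ` is in `II n t P` (In (ii)), it has a class `h''` (In (1)), and for a primitive root `ζ` of order `3^N`:
`τ⁻¹ σ τ ζ = τ⁻¹ (ζ^(Nm h))⁻¹ = ζ^(Nm h)`: `3^N ∣ Nm h'' - Nm h` (Act (1), `IsPrimitiveRoot`). So if `Hm f' N h` then `Hm f' N h''`, `τ⁻¹ σ τ` fixes `z`, i.e. `σ (τ z) = τ z`, and `σ z' = z'`. For `a ∈ As N`: `(s a)⁻¹ * (τ⁻¹ * s a * τ)` is in `II`, it fixes `ζ`, so its class has norm `1` modulo `3^N` and it fixes `z`: `s a (τ z) = τ (s a z)`. So `∑ s a z' = τ (∑ s a z) + (-1)^e ι^(k+1) ∑ s a z = 3^N (τ x + (-1)^e ι^(k+1) x)`.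
TrN (second claim) for `z'`: `GE (N + 1/2)`, so `GE (1/2) (τ x + (-1)^e ι^(k+1) x)`, `MP P`. `MP P (τ x - x)` (`DI.VP.inertia`). So `MP P ((1 + (-1)^e ι^(k+1)) x)`. `k = 1`, `e = 1`: the factor is `1 - ι^2 = 2`. `k = 2`: `ι^3 = -ι`, the factor is `1 - (-1)^e ι`; multiply by `1 + (-1)^e ι` (integral): `1 - ι^2 = 2`. `2` is a unit at `P` (`w_two`): `MP P x`. -/
def S_Ca : Prop :=
  S_O4 → GL.C_T0a → GL.C_In → GL.C_Act → GL.C_Sur → GL.C_Gen → GL.C_HD → GL.C_TrN → GL.C_Tc → GL.C_Tau →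
    C_UAct → C_Nrm → C_Ca

/-- (170 lines) **LSm**: `S_LS` (from O4, Pnt, Gen, U1, Fou, Ca). Compare `DR/LS/LSm.lean` (proved). PROOF. CLAIM: `MP P (xs f k e m R (tw e χ) (c / 3^j))` for all `c : ℤ`, `j` (then the difference with `c = 0`: `((0 : ℤ) : ℚ) / 3^j = 0`). `ν = NI m`. `θ = zet (3^(j+1)) ^ (c * ν)` (an integer power), `θ ^ 3^(j+1) = 1`. If `θ ≠ 1`: `θ^2 ≠ 1` (odd order), `v = vP P (θ^2 - 1) > 0`: `MP P (θ^2 - 1)` (`MP P (x^3 - 1)` implies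
`MP P (x - 1)` for integral `x`: `(x - 1)^3 = x^3 - 1 - 3 x (x - 1)`; induction). `N0` with `8 ≤ N0`, `j + 2 ≤ N0` and, if `θ ≠ 1`, `2 * 3^6/3^N0 ≤ v`; `N ≥ N0`, `T`, `D` from the hypothesis. `c' = c * 3^(N-2-j)`: `c / 3^j = c' / 3^(N-2)`, `zet (3^(N-1)) ^ (3^(N-2-j)) = zet (3^(j+1))` (`zet k = ofC (ex (1/k))`; prove `zet (k * l) ^ l = zet k` by `io`, see `DR/LS/LSm.lean`). Fou for `c'`:
`xs .. (c/3^j) = w4^k * ((3^N)⁻¹ * ∑_(a ∈ As N) (θ^a + (-1)^e (θ^a)⁻¹) * UU a)`. If `k = 1` and `θ = 1`: `e = 1`, all the factors are `0`. Otherwise: Pnt: `z0, d` (`PtN`); `GL.genE` with `Hn f N` (`GL.hn_un`, `GL.hn_one`): `SH`; U1 (the hypothesis is the one of `S_LS`), Ca. -/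
def S_LSm : Prop := S_O4 → GL.C_Pnt → GL.C_Gen → C_U1 → C_Fou → C_Ca → S_LS

/-! ## The composition -/

/-- `S_LS`. -/
theorem asmLS (i : GL.GLIn) (d9 : S_D9) (c4 : S_C4) (o : GL.GLOut) (u : GL.GLOutB) (bt : S_Bt) (gb : S_Gb)
    (rs : S_RS) (cos : S_Cos) (su : S_SU) (u1 : S_U1) (uact : S_UAct) (nrm : S_Nrm) (fou : S_Fou) (ca : S_Ca)
    (lsm : S_LSm) : S_LS :=
  have Gb := gb i.B7 i.R1 i.D2 d9
  have SU := su i.O4 i.D2 o.T0a o.Rep o.Gen o.HD u.Sub u.Chi Gb (cos bt)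
  have U1 := u1 i.O4 o.T0a o.Gen o.HD u.LSA (rs u.Chi Gb) SU
  have UAct := uact i.O4 o.Act o.Tc u.Chi Gb bt
  have Nrm := nrm i.O4
  lsm i.O4 u.Pnt o.Gen U1 (fou i.O4 c4 Gb bt Nrm)
    (ca i.O4 o.T0a o.In o.Act o.Sur o.Gen o.HD o.TrN o.Tc u.Tau UAct Nrm)

end Pool.Agent.DM.DU.LS
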